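import Pool.Agent.Lib.SHT.Defs

/-!
# Module Brun: the model in short ranges

`L = log X`, `z = zA A X = ⌊L^A⌋`. (1) As `HLT.brun_param` (Lib/HLT/Brun.lean, copy the proof) with `(X : ℝ)^ε` in place of `Real.sqrt x` in the last inequality (`exp (l / 2)` becomes `exp (ε l)`; for `ε > 0`
fixed, `e2` with the constant divided by `2 ε`). (2) As `HLT.brun_asym` (copy the proof): for all `y ≤ X` and `F` as there, `|count - y ∏ (1 - |F p| / p)| ≤ y / L^B + X^ε` (the first error term in the proof of `brun_asym` is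
`y` times the quantity bounded by `1 / L^B`, the second one is bounded by the second inequality of `brun_param`). (3) As `HLU.sieve_corr_y` (Lib/HLU/SieveY.lean, copy the proof, `pn z univ t = DZ^(-r) * indicator`,
`(DZ z)⁻¹ ≤ L`): `|∑_{n ≤ y} pn (zA A X) univ t n - y SZ (zA A X) t| ≤ y / L^B + X^ε`. (4) `sing_strong r A B` (Lib/HLU/SingS.lean): `|SZ - SI| ≤ SI / L^B`, `sing_upper r`: `SI ≤ L^(r+1)`.
(5) `∏_i G1 z (n + t i) = pn z univ t n * hl univ t n` and `HLU.abel_log_real` with `E = 2 x / L^(B + 1)`-like: `|∑_{n ≤ y} pn hl - SI ∑_{2 ≤ n ≤ y} hl| ≤ 2^(r+2) (E + |SI|)` for `y ≤ x`.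
Since `X^ε ≤ x`: use (3) with `ε / 2` in place of `ε`, `X^(ε/2) ≤ x / L^(B+r+5)` for large `X`. `A0 = B + r + 10`.
-/

set_option autoImplicit false

open Finset Filter

namespace Pool.Agent.SHT

open Pool.Agent.HLB Pool.Agent.HL Pool.Agent.HLT Pool.Agent.HLU Pool.Agent.VN

namespace BrunAux

lemma ev_rpow (a : ℕ) (η : ℝ) (hη : 0 < η) : ∀ᶠ x : ℕ in atTop, Real.log x ^ a ≤ (x : ℝ) ^ η := by
  have h1 : (fun x : ℝ => Real.log x ^ a) =o[atTop] (fun x : ℝ => x ^ η) := by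
    have h := isLittleO_log_rpow_rpow_atTop (a : ℝ) hη
    simp only [Real.rpow_natCast] at h
    exact h
  have h2 := (h1.comp_tendsto tendsto_natCast_atTop_atTop).bound (show (0:ℝ) < 1 by norm_num)
  filter_upwards [h2, ev_log 1] with x hx hL
  simp only [Function.comp_def, one_mul] at hx
  rw [Real.norm_of_nonneg (by positivity), Real.norm_of_nonneg (by positivity)] at hx
  exact hx

/-- Choice of the parameter. -/
theorem brun_param_eps (r A B : ℕ) (ε : ℝ) (hε : 0 < ε) : ∀ᶠ x : ℕ in atTop, ∃ k : ℕ, Even k ∧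
    (r * ∑ p ∈ Nat.primesLE (zA A x), 1 / (p : ℝ)) ^ (k + 1) / ((k + 1).factorial : ℝ) ≤
      1 / Real.log x ^ B ∧
    (k + 2) * ((1 + (zA A x : ℝ)) * (1 + r)) ^ (k + 1) ≤ (x : ℝ) ^ ε := by
  have hr : (0 : ℝ) ≤ r := Nat.cast_nonneg r
  have hA : (0 : ℝ) ≤ A := Nat.cast_nonneg A
  have hB : (0 : ℝ) ≤ B := Nat.cast_nonneg B
  have hc : 0 < 2 / (9 * (r + 1) * Real.exp 2) := by positivity
  set c1 : ℝ := 1 + Real.log (2 * (1 + r)) with hc1
  have hc1' : 1 ≤ c1 := by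
    have : 0 ≤ Real.log (2 * (1 + r)) := Real.log_nonneg (by linarith)
    linarith
  have e1 := tendsto_loglog_nat.eventually (ev_log_small A _ hc)
  have e2 := tendsto_loglog_nat.eventually
    (ev_poly_exp (((2 * (B + 1) + 3) * (c1 + A)) / ε) 2)
  have e3 := tendsto_loglog_nat.eventually (eventually_ge_atTop (1 : ℝ))
  have e4 := tendsto_log_nat.eventually (eventually_ge_atTop (1 : ℝ))
  filter_upwards [e1, e2, e3, e4, eventually_ge_atTop 1] with x h1 h2 h3 h4 hx1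
  set l := Real.log (x : ℝ) with hl
  set t := Real.log l with ht
  have hlpos : 0 < l := by linarith
  have hel : Real.exp t = l := Real.exp_log hlpos
  set m := ⌈((B : ℝ) + 1) * t⌉₊ with hm
  have hm1 : ((B : ℝ) + 1) * t ≤ m := Nat.le_ceil _
  have hm2 : (m : ℝ) < ((B : ℝ) + 1) * t + 1 := Nat.ceil_lt_add_one (by positivity)
  refine ⟨2 * m, even_two_mul m, ?_, ?_⟩
  · have hsum := sum_inv_le_zA A x h4
    have hsum0 : 0 ≤ ∑ p ∈ Nat.primesLE (zA A x), 1 / (p : ℝ) :=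
      Finset.sum_nonneg fun p _ => by positivity
    have hM : r * ∑ p ∈ Nat.primesLE (zA A x), 1 / (p : ℝ) ≤ r * (9 * (2 / (9 * (r + 1) * Real.exp 2) * t)) := by
      gcongr
      calc _ ≤ 9 * (1 + Real.log (1 + A * t)) := hsum
        _ ≤ _ := by gcongr
    have hM2 : (r * ∑ p ∈ Nat.primesLE (zA A x), 1 / (p : ℝ)) * Real.exp 2 ≤ ((2 * m + 1 : ℕ) : ℝ) := by
      calc _ ≤ r * (9 * (2 / (9 * (r + 1) * Real.exp 2) * t)) * Real.exp 2 := by gcongr
        _ = r / (r + 1) * (2 * t) := by field_simp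
        _ ≤ 1 * (2 * t) := by
            gcongr
            rw [div_le_one (by positivity)]
            linarith
        _ ≤ _ := by
            push_cast
            nlinarith
    have := pow_div_fact_le _ (2 * m + 1) (by positivity) (by omega) hM2
    refine this.trans ?_
    rw [one_div, ← hel, ← Real.exp_nat_mul, ← Real.exp_neg]
    apply Real.exp_le_exp.mpr
    push_cast
    nlinarith
  · have hz : (zA A x : ℝ) ≤ l ^ A := Nat.floor_le (by positivity)
    have hlA : 1 ≤ l ^ A := one_le_pow₀ h4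
    have hz1 : (1 + (zA A x : ℝ)) * (1 + r) ≤ Real.exp (Real.log (2 * (1 + r)) + A * t) := by
      rw [Real.exp_add, Real.exp_log (by positivity), mul_comm (A : ℝ) t, mul_comm t (A : ℝ),
        Real.exp_nat_mul, hel]
      nlinarith
    have hk : ((2 * m : ℕ) : ℝ) + 2 ≤ Real.exp ((2 * m : ℕ) + 1) := by
      have := Real.add_one_le_exp (((2 * m : ℕ) : ℝ) + 1)
      linarith
    have hx0 : (0 : ℝ) < x := by exact_mod_cast hx1
    have hsx : (x : ℝ) ^ ε = Real.exp (ε * l) := by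
      rw [Real.rpow_def_of_pos hx0, hl, mul_comm]
    rw [hsx]
    calc (((2 * m : ℕ) : ℝ) + 2) * ((1 + (zA A x : ℝ)) * (1 + r)) ^ (2 * m + 1)
        ≤ Real.exp ((2 * m : ℕ) + 1) * Real.exp (Real.log (2 * (1 + r)) + A * t) ^ (2 * m + 1) := by
          gcongr
      _ = Real.exp ((2 * m + 1) * (c1 + A * t)) := by
          rw [← Real.exp_nat_mul, ← Real.exp_add]
          congr 1
          push_cast
          rw [hc1]
          ring
      _ ≤ Real.exp (ε * l) := by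
          apply Real.exp_le_exp.mpr
          have h5 : 2 * (m : ℝ) + 1 ≤ (2 * (B + 1) + 3) * t := by nlinarith
          have h6 : c1 + A * t ≤ (c1 + A) * t := by nlinarith
          have h7 : (2 * (m : ℝ) + 1) * (c1 + A * t) ≤ ((2 * (B + 1) + 3) * t) * ((c1 + A) * t) := by
            gcongr
          rw [hel] at h2
          have h8 : ((2 * ((B : ℝ) + 1) + 3) * t) * ((c1 + A) * t) =
              ε * (((2 * (B + 1) + 3) * (c1 + A)) / ε * t ^ 2) := by
            field_simp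
          rw [h8] at h7
          exact h7.trans (mul_le_mul_of_nonneg_left h2 hε.le)

theorem brun_y (r A B : ℕ) (ε : ℝ) (hε : 0 < ε) : ∀ᶠ X : ℕ in atTop, ∀ y : ℕ, ∀ F : ℕ → Finset ℕ,
    (∀ p ∈ Nat.primesLE (zA A X), F p ⊆ range p ∧ (F p).card ≤ r) →
    |(((Icc 1 y).filter (fun n => ∀ p ∈ Nat.primesLE (zA A X), n % p ∉ F p)).card : ℝ) -
        y * ∏ p ∈ Nat.primesLE (zA A X), (1 - ((F p).card : ℝ) / p)| ≤
      y / Real.log X ^ B + (X : ℝ) ^ ε := by
  filter_upwards [ev_log 2, brun_param_eps r A (B + 1) ε hε] with X h1 h3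
  intro y F hF
  obtain ⟨k, hk, hk1, hk2⟩ := h3
  have hl : 0 < Real.log (X : ℝ) := by linarith
  refine (brun_det r (zA A X) k y hk F hF).trans (add_le_add ?_ hk2)
  calc 2 * (y : ℝ) * ((r * ∑ p ∈ Nat.primesLE (zA A X), 1 / (p : ℝ)) ^ (k + 1) /
      ((k + 1).factorial : ℝ)) ≤ 2 * y * (1 / Real.log X ^ (B + 1)) := by
        gcongr
    _ = (y / Real.log X ^ B) * (2 / Real.log X) := by
        rw [pow_succ]
        field_simp
    _ ≤ (y / Real.log X ^ B) * 1 := by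
        refine mul_le_mul_of_nonneg_left ?_ (by positivity)
        rw [div_le_one hl]
        exact h1
    _ = _ := mul_one _

open HLU.SieveYAux in
theorem sieve_short (r A B : ℕ) (ε : ℝ) (hε : 0 < ε) : ∀ᶠ X : ℕ in atTop, ∀ t : Fin r → ℕ, ∀ y : ℕ,
    |∑ n ∈ Icc 1 y, pn (zA A X) univ t n - y * SZ (zA A X) t| ≤ y / Real.log X ^ B + (X : ℝ) ^ ε := by
  classical
  have hε2 : 0 < ε / 2 := half_pos hε
  filter_upwards [brun_y r A (B + r) (ε / 2) hε2, DZ_inv_le A, eventually_ge_atTop 3,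
    ev_rpow r (ε / 2) hε2] with X hb hD hx hpw
  intro t y
  have hX0 : (0 : ℝ) < X := by exact_mod_cast (by omega : 0 < X)
  have hlog : 0 < Real.log X := Real.log_pos (by exact_mod_cast (by omega : 1 < X))
  have hD0 : 0 ≤ (DZ (zA A X))⁻¹ := inv_nonneg.mpr (DZ_pos _).le
  have h1 := hb y (exr t) (fun p hp => by
    have hp0 : 0 < p := (Nat.mem_primesLE.1 hp).2.pos
    refine ⟨exr_subset t hp0, ?_⟩
    rw [card_exr t hp0]
    have := nuI_le t p
    rwa [Fintype.card_fin] at this)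
  have h2 : ∑ n ∈ Icc 1 y, pn (zA A X) univ t n = (DZ (zA A X))⁻¹ ^ r *
      (((Icc 1 y).filter (fun n => ∀ p ∈ Nat.primesLE (zA A X), n % p ∉ exr t p)).card : ℝ) := by
    rw [Finset.card_filter]
    push_cast
    rw [Finset.mul_sum]
    exact Finset.sum_congr rfl fun n _ => by rw [prod_nuz', Fintype.card_fin]
  rw [h2, SZ_eq', Fintype.card_fin]
  have h3 : (DZ (zA A X))⁻¹ ^ r *
      (((Icc 1 y).filter (fun n => ∀ p ∈ Nat.primesLE (zA A X), n % p ∉ exr t p)).card : ℝ) -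
      y * ((DZ (zA A X))⁻¹ ^ r * ∏ p ∈ Nat.primesLE (zA A X), (1 - ((exr t p).card : ℝ) / p)) =
      (DZ (zA A X))⁻¹ ^ r *
      ((((Icc 1 y).filter (fun n => ∀ p ∈ Nat.primesLE (zA A X), n % p ∉ exr t p)).card : ℝ) -
        y * ∏ p ∈ Nat.primesLE (zA A X), (1 - ((exr t p).card : ℝ) / p)) := by ring
  rw [h3, abs_mul, abs_of_nonneg (pow_nonneg hD0 r)]
  calc (DZ (zA A X))⁻¹ ^ r * _ ≤ Real.log X ^ r * (y / Real.log X ^ (B + r) + (X : ℝ) ^ (ε / 2)) :=
        mul_le_mul (pow_le_pow_left₀ hD0 hD r) h1 (abs_nonneg _) (pow_nonneg hlog.le r)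
    _ = y / Real.log X ^ B + Real.log X ^ r * (X : ℝ) ^ (ε / 2) := by
        rw [mul_add]
        congr 1
        rw [pow_add]
        field_simp
    _ ≤ y / Real.log X ^ B + (X : ℝ) ^ (ε / 2) * (X : ℝ) ^ (ε / 2) := by
        gcongr
    _ = y / Real.log X ^ B + (X : ℝ) ^ ε := by
        rw [← Real.rpow_add hX0, add_halves]

end BrunAux

open BrunAux in
theorem model_short (r B : ℕ) (ε : ℝ) (hε : 0 < ε) : ∃ A0 : ℕ, ∀ A : ℕ, A0 ≤ A → ∀ᶠ X : ℕ in atTop,
    ∀ t : Fin r → ℕ, Function.Injective t → (∀ i, t i ≤ 2 * X) → ∀ x : ℕ, (X : ℝ) ^ ε ≤ x → x ≤ X →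
    ∀ y : ℕ, y ≤ x → |∑ n ∈ Icc 1 y, ∏ i, G1 (zA A X) (n + t i) - SI t * ∑ n ∈ Icc 2 y, hl univ t n| ≤
      x / Real.log X ^ B := by
  refine ⟨B + r + 10, fun A hA => ?_⟩
  have hε2 : 0 < ε / 2 := half_pos hε
  filter_upwards [sieve_short r A (B + 5) (ε / 2) hε2, sing_strong r A (B + r + 6) (by omega),
    sing_upper r, ev_rpow (B + 5) (ε / 2) hε2, ev_rpow (r + 1 + (B + 5)) ε hε,
    ev_log (2 ^ (r + 4)), eventually_ge_atTop 3] with X h1 h2 h3 h4 h5 h6 hX3
  intro t ht htX x hx _ y hy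
  set L := Real.log (X : ℝ) with hL
  have hX0 : (0 : ℝ) < X := by exact_mod_cast (by omega : 0 < X)
  have h2r : (1 : ℝ) ≤ 2 ^ (r + 4) := one_le_pow₀ (by norm_num)
  have hL1 : 1 ≤ L := h2r.trans h6
  have hL0 : 0 < L := by linarith
  have hx0 : (0 : ℝ) ≤ x := Nat.cast_nonneg x
  have hSI := SI_nonneg t ht
  have hSIu : SI t ≤ L ^ (r + 1) := h3 (Fin r) t (Fintype.card_fin r) ht htX
  have hSS := h2 (Fin r) t (Fintype.card_fin r) ht htX
  have hq : 0 ≤ (x : ℝ) / L ^ (B + 5) := by positivity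
  have hXe : (X : ℝ) ^ (ε / 2) ≤ x / L ^ (B + 5) := by
    rw [le_div_iff₀ (by positivity)]
    calc (X : ℝ) ^ (ε / 2) * L ^ (B + 5) ≤ (X : ℝ) ^ (ε / 2) * (X : ℝ) ^ (ε / 2) := by gcongr
      _ = (X : ℝ) ^ ε := by rw [← Real.rpow_add hX0, add_halves]
      _ ≤ x := hx
  have hLr : L ^ (r + 1) ≤ x / L ^ (B + 5) := by
    rw [le_div_iff₀ (by positivity), ← pow_add]
    exact h5.trans hx
  have key : ∀ y' : ℕ, y' ≤ x → |∑ n ∈ Icc 1 y', pn (zA A X) univ t n - y' * SI t| ≤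
      3 * (x / L ^ (B + 5)) := by
    intro y' hy'
    have hy0 : (0 : ℝ) ≤ y' := Nat.cast_nonneg y'
    have hyx : (y' : ℝ) ≤ x := by exact_mod_cast hy'
    have a1 := h1 t y'
    have a2 : |(y' : ℝ) * (SZ (zA A X) t - SI t)| ≤ x / L ^ (B + 5) := by
      rw [abs_mul, abs_of_nonneg hy0]
      calc (y' : ℝ) * |SZ (zA A X) t - SI t| ≤ x * (SI t / L ^ (B + r + 6)) := by
            gcongr
        _ ≤ x * (L ^ (r + 1) / L ^ (B + r + 6)) := by gcongr
        _ = x / L ^ (B + 5) := by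
            rw [show B + r + 6 = (r + 1) + (B + 5) by ring, pow_add L (r + 1) (B + 5)]
            field_simp
    have a3 : (y' : ℝ) / L ^ (B + 5) ≤ x / L ^ (B + 5) := by gcongr
    have e : ∑ n ∈ Icc 1 y', pn (zA A X) univ t n - y' * SI t =
        (∑ n ∈ Icc 1 y', pn (zA A X) univ t n - y' * SZ (zA A X) t) + y' * (SZ (zA A X) t - SI t) := by
      ring
    rw [e]
    refine (abs_add_le _ _).trans ?_
    linarith
  have hab := abel_log_real univ t (fun n => pn (zA A X) univ t n) (SI t) (3 * (x / L ^ (B + 5))) x key y hy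
  have e1 : ∑ n ∈ Icc 1 y, ∏ i, G1 (zA A X) (n + t i) =
      ∑ n ∈ Icc 1 y, pn (zA A X) univ t n * hl univ t n :=
    Finset.sum_congr rfl fun n _ => (pnhl_eq (zA A X) univ t n).symm
  rw [e1]
  refine hab.trans ?_
  rw [Finset.card_univ, Fintype.card_fin, abs_of_nonneg hSI]
  calc (2 : ℝ) ^ (r + 2) * (3 * (x / L ^ (B + 5)) + SI t)
      ≤ 2 ^ (r + 2) * (3 * (x / L ^ (B + 5)) + x / L ^ (B + 5)) := by
        gcongr
        exact hSIu.trans hLr
    _ = 2 ^ (r + 4) * (x / L ^ (B + 5)) := by ring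
    _ ≤ L ^ 5 * (x / L ^ (B + 5)) := by
        refine mul_le_mul_of_nonneg_right ?_ hq
        calc (2 : ℝ) ^ (r + 4) ≤ L ^ 1 := by rw [pow_one]; exact h6
          _ ≤ L ^ 5 := pow_le_pow_right₀ hL1 (by norm_num)
    _ = x / L ^ B := by
        rw [pow_add]
        field_simp

end Pool.Agent.SHT
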