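import Pool.Agent.Lib.SHT.Defs
import Pool.Agent.Lib.VM.WinSup6
import Pool.Agent.Lib.VK.SepSieve

/-!
# The long ranges `x ≥ X`, and the mean square property of intervals
-/

set_option autoImplicit false

open Finset Filter

namespace Pool.Agent.SHT

open Pool.Agent.HLB Pool.Agent.HL Pool.Agent.HLT Pool.Agent.HLU Pool.Agent.VK Pool.Agent.VN

/-- The input on short windows. -/
theorem wne6 : WNE (1 / 6) := by
  intro κ hκ A0 B
  obtain ⟨A, hA, h⟩ := VM.win_sup6 A0 B (κ - 1 / 6) (by linarith)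
  refine ⟨A, hA, ?_⟩
  filter_upwards [h] with x hx H h1 h2 k0
  exact hx H k0 (by rw [add_sub_cancel]; exact h1) h2

lemma energy_le (T : Finset ℕ) : energy 1 T ≤ T.card := by
  unfold energy
  refine Finset.card_le_card_of_injOn (fun u => u.1 0) (fun u hu => ?_) (fun u hu v hv huv => ?_)
  · have h := (Finset.mem_filter.mp (Finset.mem_coe.mp hu)).1
    exact Fintype.mem_piFinset.mp (Finset.mem_product.mp h).1 0
  · have h1 := (Finset.mem_filter.mp (Finset.mem_coe.mp hu)).2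
    have h2 := (Finset.mem_filter.mp (Finset.mem_coe.mp hv)).2
    simp only [Fin.sum_univ_one] at h1 h2
    have huv' : u.1 0 = v.1 0 := huv
    refine Prod.ext (funext fun i => ?_) (funext fun i => ?_)
    · rw [Subsingleton.elim i 0]
      exact huv'
    · rw [Subsingleton.elim i 0, ← h1, ← h2]
      exact huv'

/-- The spectral exponent of the intervals. -/
def FI (b : ℕ) : ℕ := 2 * 1 * b + 0 + 1

lemma interval_spb (b0 : ℕ) : ∃ H0 : ℕ, ∀ H : ℕ, H0 ≤ H → SpB FI b0 H (Icc 1 H) := by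
  obtain ⟨H0, hH0⟩ := eventually_atTop.mp (sps_of_energy 1 0 le_rfl)
  refine ⟨max H0 1, fun H hH => ?_⟩
  have hH1 : 1 ≤ H := le_trans (le_max_right _ _) hH
  have hsub : Icc 1 H ⊆ range (H + 1) := by
    intro u hu
    rw [mem_Icc] at hu
    rw [mem_range]
    omega
  have hcard : (Icc 1 H).card = H := by rw [Nat.card_Icc, Nat.add_sub_cancel]
  have hE := energy_le (Icc 1 H)
  rw [hcard] at hE
  have h := (hH0 H (le_trans (le_max_left _ _) hH) H (Icc 1 H) hH1 ⟨1, by rw [mem_Icc]; omega⟩ hsub (by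
    rw [hcard, pow_zero, mul_one, pow_two]
    exact mul_le_mul_of_nonneg_left (by exact_mod_cast hE) (Nat.cast_nonneg _)) b0).2
  exact h

/-- `MSP` for the intervals `[1, x]`, `X^(1/6+ε) ≤ x ≤ X`. -/
theorem msp_interval (K' B' A0 : ℕ) (ε : ℝ) (hε : 0 < ε) : ∃ A : ℕ, A0 ≤ A ∧ ∀ᶠ X : ℕ in atTop, ∀ x : ℕ,
    (X : ℝ) ^ (1 / 6 + ε) ≤ x → x ≤ X → MSP A K' B' X (Icc 1 x) := by
  obtain ⟨b0, A, hA, h⟩ := msp_ex (1 / 6) (1 / 6 + ε) wne6 (by linarith) K' B' A0 (fun b => FI (b + 1))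
  obtain ⟨H0, hH0⟩ := interval_spb (b0 + 1)
  have hlarge : ∀ᶠ X : ℕ in atTop, ∀ x : ℕ, (X : ℝ) ^ (1 / 6 + ε) ≤ x → H0 ≤ x := by
    have h := ((tendsto_rpow_atTop (show (0 : ℝ) < 1 / 6 + ε by linarith)).comp
        tendsto_natCast_atTop_atTop).eventually (eventually_ge_atTop (H0 : ℝ))
    filter_upwards [h] with X hX x hx
    exact_mod_cast (show (H0 : ℝ) ≤ (X : ℝ) ^ (1 / 6 + ε) from hX).trans hx
  refine ⟨A, hA, ?_⟩
  filter_upwards [h, spb_ev (1 / 6) (1 / 6 + ε) le_rfl (by linarith) FI b0, hlarge] with X h1 h2 h3 x hx1 hx2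
  obtain ⟨h4, h5⟩ := h2 x hx1 hx2
  refine h1 x h4 hx1 hx2 (Icc 1 x) ?_ (h5 _ (hH0 x (h3 x hx1)))
  intro u hu
  rw [mem_Icc] at hu
  rw [mem_range]
  omega

/-- The number of tuples with a coincidence. -/
lemma card_not_inj (r X : ℕ) (hX : 1 ≤ X) :
    (((Fintype.piFinset (fun _ : Fin r => Icc 1 X)).filter (fun a => ¬ Function.Injective a)).card : ℝ) ≤
      (r : ℝ) ^ 2 * (X : ℝ) ^ r / X := by
  classical
  set P := Fintype.piFinset (fun _ : Fin r => Icc 1 X) with hP
  have h0 : ∀ i j : Fin r, i ≠ j → ((P.filter (fun a => a i = a j)).card : ℝ) ≤ (X : ℝ) ^ r / X := by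
    intro i j hij
    obtain ⟨m, rfl⟩ : ∃ m, r = m + 1 := ⟨r - 1, by have := i.pos; omega⟩
    have h1 : (P.filter (fun a => a i = a j)).card ≤ (Fintype.piFinset (fun _ : Fin m => Icc 1 X)).card := by
      refine Finset.card_le_card_of_injOn (fun a => i.removeNth a) ?_ ?_
      · intro a ha
        have h2 := (Finset.mem_filter.mp (Finset.mem_coe.mp ha)).1
        rw [Finset.mem_coe, Fintype.mem_piFinset]
        intro k
        exact Fintype.mem_piFinset.mp h2 _
      · intro a ha b hb hab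
        have h2 := (Finset.mem_filter.mp (Finset.mem_coe.mp ha)).2
        have h3 := (Finset.mem_filter.mp (Finset.mem_coe.mp hb)).2
        obtain ⟨k, hk⟩ := Fin.exists_succAbove_eq hij.symm
        funext l
        by_cases hl : l = i
        · subst hl
          have h4 := congrFun hab k
          simp only [Fin.removeNth_apply, hk] at h4
          rw [h2, h3, h4]
        · obtain ⟨k', hk'⟩ := Fin.exists_succAbove_eq hl
          have h4 := congrFun hab k'
          simp only [Fin.removeNth_apply, hk'] at h4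
          exact h4
    have h2 : ((Fintype.piFinset (fun _ : Fin m => Icc 1 X)).card : ℝ) = (X : ℝ) ^ m := by
      rw [Fintype.card_piFinset]
      simp
    have hX0 : (X : ℝ) ≠ 0 := by positivity
    calc ((P.filter (fun a => a i = a j)).card : ℝ) ≤ ((Fintype.piFinset (fun _ : Fin m => Icc 1 X)).card : ℝ) := by
          exact_mod_cast h1
      _ = (X : ℝ) ^ (m + 1) / X := by
          rw [h2, pow_succ]
          field_simp
  have h1 : P.filter (fun a => ¬ Function.Injective a) ⊆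
      ((univ : Finset (Fin r × Fin r)).filter (fun p => p.1 ≠ p.2)).biUnion (fun p => P.filter (fun a => a p.1 = a p.2)) := by
    intro a ha
    obtain ⟨h2, h3⟩ := Finset.mem_filter.mp ha
    rw [Function.Injective] at h3
    push Not at h3
    obtain ⟨i, j, h4, h5⟩ := h3
    rw [Finset.mem_biUnion]
    exact ⟨(i, j), Finset.mem_filter.mpr ⟨Finset.mem_univ _, h5⟩, Finset.mem_filter.mpr ⟨h2, h4⟩⟩
  have hX0 : (0 : ℝ) ≤ (X : ℝ) ^ r / X := by positivity
  calc ((P.filter (fun a => ¬ Function.Injective a)).card : ℝ) ≤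
        ((((univ : Finset (Fin r × Fin r)).filter (fun p => p.1 ≠ p.2)).biUnion
          (fun p => P.filter (fun a => a p.1 = a p.2))).card : ℝ) := by
          exact_mod_cast Finset.card_le_card h1
    _ ≤ ∑ p ∈ (univ : Finset (Fin r × Fin r)).filter (fun p => p.1 ≠ p.2), ((P.filter (fun a => a p.1 = a p.2)).card : ℝ) := by
          exact_mod_cast Finset.card_biUnion_le
    _ ≤ ∑ _p ∈ (univ : Finset (Fin r × Fin r)).filter (fun p => p.1 ≠ p.2), (X : ℝ) ^ r / X :=
          Finset.sum_le_sum fun p hp => h0 p.1 p.2 (Finset.mem_filter.mp hp).2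
    _ ≤ ∑ _p ∈ (univ : Finset (Fin r × Fin r)), (X : ℝ) ^ r / X :=
          Finset.sum_le_sum_of_subset_of_nonneg (Finset.filter_subset _ _) fun _ _ _ => hX0
    _ = (r : ℝ) ^ 2 * (X : ℝ) ^ r / X := by
          rw [Finset.sum_const, Finset.card_univ, Fintype.card_prod, Fintype.card_fin, nsmul_eq_mul]
          push_cast
          ring

/-- The long ranges. -/
theorem long_x (m A : ℕ) (ε : ℝ) (hε : 0 < ε) : ∃ x0 : ℕ, ∀ X : ℕ, x0 ≤ X →
    ∃ E ⊆ Fintype.piFinset (fun _ : Fin (m + 1) => Icc 1 X), (E.card : ℝ) ≤ (X : ℝ) ^ (m + 1) / Real.log X ^ A ∧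
    ∀ f ∈ Fintype.piFinset (fun _ : Fin (m + 1) => Icc 1 X), f ∉ E → Function.Injective f ∧
      ∀ x : ℕ, X ≤ x → (x : ℝ) ^ (1 / 6 + ε) ≤ X → ∀ y : ℕ, y ≤ x →
        |(((Icc 1 y).filter (fun n : ℕ => ∀ i, (n + f i).Prime)).card : ℝ) - SI f * ∑ n ∈ Icc 2 y, hl univ f n| ≤
          x / Real.log x ^ A := by
  classical
  obtain ⟨b0, x0, h⟩ := fin_b (1 / 6) (1 / 6 + ε) le_rfl wne6 (by linarith) m (A + 1) FI
  obtain ⟨H0, hH0⟩ := interval_spb b0
  have hpow : ∀ᶠ X : ℕ in atTop, (m + 1 : ℝ) ^ 2 * Real.log X ^ (A + 1) ≤ X := by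
    have h1 := (isLittleO_log_rpow_rpow_atTop ((A + 1 : ℕ) : ℝ) (show (0 : ℝ) < 1 by norm_num)).bound
      (show (0 : ℝ) < 1 / (m + 1 : ℝ) ^ 2 by positivity)
    filter_upwards [tendsto_natCast_atTop_atTop.eventually h1, ev_log 1] with X hX hL
    rw [Real.rpow_natCast, Real.rpow_one, Real.norm_of_nonneg (by positivity), Real.norm_of_nonneg (Nat.cast_nonneg _),
      div_mul_eq_mul_div, one_mul, le_div_iff₀ (by positivity)] at hX
    linarith
  obtain ⟨x1, hx1⟩ := eventually_atTop.mp ((ev_log 2).and hpow)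
  refine ⟨max (max x0 H0) (max x1 1), fun X hX => ?_⟩
  have hX0 : x0 ≤ X := le_trans (le_trans (le_max_left _ _) (le_max_left _ _)) hX
  have hXH : H0 ≤ X := le_trans (le_trans (le_max_right _ _) (le_max_left _ _)) hX
  have hX1 : 1 ≤ X := le_trans (le_trans (le_max_right _ _) (le_max_right _ _)) hX
  obtain ⟨hL, hpX⟩ := hx1 X (le_trans (le_trans (le_max_left _ _) (le_max_right _ _)) hX)
  have hL0 : 0 < Real.log X := by linarith
  have hL1 : 1 ≤ Real.log X := by linarith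
  have hXr : (0 : ℝ) < X := by exact_mod_cast hX1
  have hsub : Icc 1 X ⊆ range (X + 1) := by
    intro u hu
    rw [mem_Icc] at hu
    rw [mem_range]
    omega
  have hcard : (Icc 1 X).card = X := by rw [Nat.card_Icc, Nat.add_sub_cancel]
  have key : ∀ c : ℕ, ∃ E ⊆ Fintype.piFinset (fun _ : Fin m => Icc 1 X),
      (E.card : ℝ) ≤ (X : ℝ) ^ m / Real.log X ^ (A + 1) ∧ (c ∈ Icc 1 X →
      ∀ t ∈ Fintype.piFinset (fun _ : Fin m => Icc 1 X), t ∉ E → Function.Injective (Fin.cons c t : Fin (m + 1) → ℕ) →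
        ∀ x : ℕ, X ≤ x → (∀ _i : Fin m, (x : ℝ) ^ (1 / 6 + ε) ≤ X) → ∀ y : ℕ, y ≤ x →
        |(((Icc 1 y).filter
            (fun n : ℕ => ∀ i, (n + (Fin.cons c t : Fin (m + 1) → ℕ) i).Prime)).card : ℝ) -
          SI (Fin.cons c t : Fin (m + 1) → ℕ) *
            ∑ n ∈ Icc 2 y, hl univ (Fin.cons c t : Fin (m + 1) → ℕ) n| ≤ x / Real.log x ^ (A + 1)) := by
    intro c
    by_cases hc : c ∈ Icc 1 X
    · obtain ⟨E, e1, e2, e3⟩ := h X hX0 (fun _ => X) (fun _ => le_rfl) (fun _ => Icc 1 X)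
        (fun _ => hsub) (fun _ => hH0 X hXH) c (mem_Icc.mp hc).2
      refine ⟨E, e1, ?_, fun _ => e3⟩
      rwa [Finset.prod_const, Finset.card_univ, Fintype.card_fin, hcard] at e2
    · refine ⟨∅, Finset.empty_subset _, ?_, fun h => absurd h hc⟩
      rw [Finset.card_empty, Nat.cast_zero]
      positivity
  choose E e1 e2 e3 using key
  set P := Fintype.piFinset (fun _ : Fin (m + 1) => Icc 1 X) with hP
  set E1 : Finset (Fin (m + 1) → ℕ) := P.filter (fun f => Fin.tail f ∈ E (f 0)) with hE1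
  set E2 : Finset (Fin (m + 1) → ℕ) := P.filter (fun f => ¬ Function.Injective f) with hE2
  have hc1 : (E1.card : ℝ) ≤ (X : ℝ) ^ (m + 1) / Real.log X ^ (A + 1) := by
    have h1 : E1.card ≤ ((Icc 1 X).sigma fun c => E c).card := by
      refine Finset.card_le_card_of_injOn (fun f => (⟨f 0, Fin.tail f⟩ : Σ _ : ℕ, (Fin m → ℕ))) ?_ ?_
      · intro f hf
        have h2 := Finset.mem_filter.mp (Finset.mem_coe.mp hf)
        rw [Finset.mem_coe, Finset.mem_sigma]
        exact ⟨Fintype.mem_piFinset.mp h2.1 0, h2.2⟩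
      · intro f _ g _ hfg
        have h2 := Sigma.mk.inj_iff.mp hfg
        have h3 : Fin.tail f = Fin.tail g := eq_of_heq h2.2
        rw [← Fin.cons_self_tail f, ← Fin.cons_self_tail g, h2.1, h3]
    rw [Finset.card_sigma] at h1
    calc (E1.card : ℝ) ≤ ∑ c ∈ Icc 1 X, ((E c).card : ℝ) := by exact_mod_cast h1
      _ ≤ ∑ _c ∈ Icc 1 X, (X : ℝ) ^ m / Real.log X ^ (A + 1) := Finset.sum_le_sum fun c _ => e2 c
      _ = (X : ℝ) ^ (m + 1) / Real.log X ^ (A + 1) := by
          rw [Finset.sum_const, hcard, nsmul_eq_mul, pow_succ]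
          ring
  have hc2 : (E2.card : ℝ) ≤ (X : ℝ) ^ (m + 1) / Real.log X ^ (A + 1) := by
    refine (card_not_inj (m + 1) X hX1).trans ?_
    rw [div_le_div_iff₀ hXr (by positivity)]
    push_cast
    calc ((m : ℝ) + 1) ^ 2 * (X : ℝ) ^ (m + 1) * Real.log X ^ (A + 1) =
          (X : ℝ) ^ (m + 1) * (((m : ℝ) + 1) ^ 2 * Real.log X ^ (A + 1)) := by ring
      _ ≤ (X : ℝ) ^ (m + 1) * X := mul_le_mul_of_nonneg_left hpX (by positivity)
  refine ⟨E1 ∪ E2, Finset.union_subset (Finset.filter_subset _ _) (Finset.filter_subset _ _), ?_, fun f hf hfE => ?_⟩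
  · have h3 : ((E1 ∪ E2).card : ℝ) ≤ E1.card + E2.card := by exact_mod_cast Finset.card_union_le _ _
    refine h3.trans ((add_le_add hc1 hc2).trans ?_)
    rw [← two_mul, pow_succ (Real.log X) A, mul_div_assoc', div_le_div_iff₀ (by positivity) (by positivity)]
    have h7 : 0 ≤ (X : ℝ) ^ (m + 1) * Real.log X ^ A := by positivity
    nlinarith only [h7, hL]
  · rw [Finset.mem_union, not_or] at hfE
    have hinj : Function.Injective f := by
      by_contra hcon
      exact hfE.2 (Finset.mem_filter.mpr ⟨hf, hcon⟩)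
    have hne : Fin.tail f ∉ E (f 0) := fun h => hfE.1 (Finset.mem_filter.mpr ⟨hf, h⟩)
    refine ⟨hinj, fun x hx hxX y hy => ?_⟩
    have hf0 : f 0 ∈ Icc 1 X := Fintype.mem_piFinset.mp hf 0
    have hft : Fin.tail f ∈ Fintype.piFinset (fun _ : Fin m => Icc 1 X) :=
      Fintype.mem_piFinset.mpr fun i => Fintype.mem_piFinset.mp hf i.succ
    have h4 := e3 (f 0) hf0 (Fin.tail f) hft hne (by rw [Fin.cons_self_tail]; exact hinj) x hx (fun _ => hxX) y hy
    rw [Fin.cons_self_tail] at h4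
    refine h4.trans ?_
    have hLx : 1 ≤ Real.log x := hL1.trans (Real.log_le_log hXr (by exact_mod_cast hx))
    exact div_le_div_of_nonneg_left (Nat.cast_nonneg _) (by positivity) (pow_le_pow_right₀ hLx (by omega))

end Pool.Agent.SHT
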