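import Pool.Agent.Lib.SHT.Second

/-!
# Module Net: the primes and their model, for almost all shifts and all `y ≤ x`

`L = log X`, `G0 - G1 z = dg z`. Telescoping: `∏_i G0 (n + a i) - ∏_i G1 z (n + a i) = ∑_{k : Fin r} ∏_i g_i^k (n + a i)` with `g_i^k = G1 z` for `i < k`, `dg z` for `i = k`, `G0` for `i > k`.
For every `k : Fin r` and `y ≤ x` apply `second r (K + 2) B2` with the weight `n ↦ w n` for `n ≤ y`, `0` for `n > y`:
`∑_a ‖∑_{n ≤ y} w n ∏_i g_i^k (n + a i)‖^2 ≤ X^r x^2 / L^B2`. A net of multiples of `h = ⌊x / L^(A0 + C + 1)⌋` (as in `HLU.net_y`, with a free parameter `L` instead of `log x`) and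
Chebyshev give the claim for all `y ≤ x`.
-/

set_option autoImplicit false

open Finset Filter

namespace Pool.Agent.SHT

open Pool.Agent.HLB Pool.Agent.HL Pool.Agent.HLT Pool.Agent.HLU Pool.Agent.VN

namespace NetAux

private lemma net_gen {τ : Type} (A C : ℕ) (L : ℝ) (hL2 : 2 ≤ L) (x : ℕ) (hpow : L ^ (A + C + 1) ≤ x)
    (P : Finset τ) (D : τ → ℕ → ℂ) (Q : ℝ) (hQ : 0 ≤ Q) (hD : ∀ t ∈ P, ∀ n ∈ Icc 1 x, ‖D t n‖ ≤ L ^ C)
    (hms : ∀ y : ℕ, y ≤ x → ∑ t ∈ P, ‖∑ n ∈ Icc 1 y, D t n‖ ^ 2 ≤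
      Q * ((x : ℝ) ^ 2 / L ^ (4 * A + C + 6))) :
    ∃ E ⊆ P, (E.card : ℝ) ≤ Q / L ^ A ∧ ∀ t ∈ P, t ∉ E → ∀ y : ℕ, y ≤ x →
      ‖∑ n ∈ Icc 1 y, D t n‖ ≤ x / L ^ A := by
  classical
  have hL0 : 0 < L := by linarith
  have hL1 : 1 ≤ L := by linarith
  have hLp : ∀ m : ℕ, 0 < L ^ m := fun m => pow_pos hL0 m
  have hx0 : (0 : ℝ) < x := lt_of_lt_of_le (hLp _) hpow
  set z : ℝ := x / L ^ (A + C + 1) with hz
  have hz1 : 1 ≤ z := by rw [hz, le_div_iff₀ (hLp _), one_mul]; exact hpow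
  set h : ℕ := ⌊z⌋₊ with hh
  have hh1 : 1 ≤ h := by rw [hh]; exact Nat.le_floor (by simpa using hz1)
  have hhz : (h : ℝ) ≤ z := Nat.floor_le (by linarith)
  have hzh : z ≤ 2 * (h : ℝ) := by
    have h1 : z < (h : ℝ) + 1 := Nat.lt_floor_add_one z
    have h2 : (1 : ℝ) ≤ h := by exact_mod_cast hh1
    linarith
  have hh0 : (0 : ℝ) < h := by exact_mod_cast hh1
  set K : ℕ := x / h with hK
  have hKh : K * h ≤ x := Nat.div_mul_le_self x h
  have hKr : ((K + 1 : ℕ) : ℝ) ≤ 3 * L ^ (A + C + 1) := by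
    have h1 : (K : ℝ) * h ≤ x := by exact_mod_cast hKh
    have h2 : (x : ℝ) = z * L ^ (A + C + 1) := by
      rw [hz, div_mul_cancel₀ _ (hLp _).ne']
    have h3 : (K : ℝ) * h ≤ (2 * L ^ (A + C + 1)) * h := by
      have := mul_le_mul_of_nonneg_right hzh (hLp (A + C + 1)).le
      linarith
    have h4 : (K : ℝ) ≤ 2 * L ^ (A + C + 1) := le_of_mul_le_mul_right h3 hh0
    have h5 : (1 : ℝ) ≤ L ^ (A + C + 1) := one_le_pow₀ hL1
    push_cast
    linarith
  set W : ℝ := x / (2 * L ^ A) with hW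
  have hW0 : 0 < W := by rw [hW]; have := hLp A; positivity
  let B : ℕ → Finset τ := fun k => P.filter (fun t => W < ‖∑ n ∈ Icc 1 (k * h), D t n‖)
  have hB : ∀ k ∈ range (K + 1), ((B k).card : ℝ) ≤ 4 * L ^ (2 * A) * Q / L ^ (4 * A + C + 6) := by
    intro k hk
    have hk1 : k ≤ K := Nat.lt_succ_iff.mp (mem_range.mp hk)
    have hkx : k * h ≤ x := (Nat.mul_le_mul_right h hk1).trans hKh
    have h1 : ((B k).card : ℝ) * W ^ 2 ≤ Q * (x ^ 2 / L ^ (4 * A + C + 6)) := by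
      calc ((B k).card : ℝ) * W ^ 2 = ∑ t ∈ B k, W ^ 2 := by rw [sum_const, nsmul_eq_mul]
        _ ≤ ∑ t ∈ B k, ‖∑ n ∈ Icc 1 (k * h), D t n‖ ^ 2 := by
            refine sum_le_sum fun t ht => ?_
            exact pow_le_pow_left₀ hW0.le (mem_filter.mp ht).2.le 2
        _ ≤ ∑ t ∈ P, ‖∑ n ∈ Icc 1 (k * h), D t n‖ ^ 2 :=
            sum_le_sum_of_subset_of_nonneg (filter_subset _ _) fun _ _ _ => by positivity
        _ ≤ _ := hms _ hkx
    have h2 : Q * (x ^ 2 / L ^ (4 * A + C + 6)) =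
        (4 * L ^ (2 * A) * Q / L ^ (4 * A + C + 6)) * W ^ 2 := by
      rw [hW]
      have := (hLp A).ne'
      have := (hLp (4 * A + C + 6)).ne'
      rw [show 2 * A = A + A by ring, pow_add L A A]
      field_simp
      ring
    rw [h2] at h1
    exact le_of_mul_le_mul_right h1 (by positivity)
  refine ⟨(range (K + 1)).biUnion B, ?_, ?_, ?_⟩
  · intro t ht
    obtain ⟨k, -, hk⟩ := mem_biUnion.mp ht
    exact (mem_filter.mp hk).1
  · have h1 : ((((range (K + 1)).biUnion B).card : ℕ) : ℝ) ≤ ∑ k ∈ range (K + 1), ((B k).card : ℝ) := by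
      exact_mod_cast card_biUnion_le
    have h2 : ∑ k ∈ range (K + 1), ((B k).card : ℝ) ≤
        ((K + 1 : ℕ) : ℝ) * (4 * L ^ (2 * A) * Q / L ^ (4 * A + C + 6)) := by
      refine (sum_le_sum hB).trans ?_
      rw [sum_const, card_range, nsmul_eq_mul]
    have h3 : ((K + 1 : ℕ) : ℝ) * (4 * L ^ (2 * A) * Q / L ^ (4 * A + C + 6)) ≤
        (3 * L ^ (A + C + 1)) * (4 * L ^ (2 * A) * Q / L ^ (4 * A + C + 6)) := by
      refine mul_le_mul_of_nonneg_right hKr ?_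
      have := hLp (2 * A)
      have := hLp (4 * A + C + 6)
      positivity
    refine h1.trans (h2.trans (h3.trans ?_))
    have h4 : (3 * L ^ (A + C + 1)) * (4 * L ^ (2 * A) * Q / L ^ (4 * A + C + 6)) =
        (12 * Q / L ^ 5) / L ^ A := by
      have e1 : L ^ (4 * A + C + 6) = L ^ (A + C + 1) * L ^ (2 * A) * (L ^ 5 * L ^ A) := by
        rw [← pow_add, ← pow_add, ← pow_add]
        congr 1
        ring
      rw [e1]
      have := (hLp (A + C + 1)).ne'
      have := (hLp (2 * A)).ne'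
      have := (hLp A).ne'
      field_simp
      ring
    rw [h4]
    refine div_le_div_of_nonneg_right ?_ (hLp A).le
    rw [div_le_iff₀ (hLp 5)]
    have h5 : (12 : ℝ) ≤ L ^ 5 := by
      have : (2 : ℝ) ^ 5 ≤ L ^ 5 := pow_le_pow_left₀ (by norm_num) hL2 5
      linarith
    nlinarith
  · intro t ht htE y hy
    set k : ℕ := y / h with hk
    have hkK : k ≤ K := Nat.div_le_div_right hy
    have hkh : k * h ≤ y := Nat.div_mul_le_self y h
    have hlt : y < k * h + h := by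
      have := Nat.lt_div_mul_add (a := y) (b := h) (by omega)
      simpa [hk] using this
    have hg : ‖∑ n ∈ Icc 1 (k * h), D t n‖ ≤ W := by
      by_contra hcon
      push Not at hcon
      exact htE (mem_biUnion.mpr ⟨k, mem_range.mpr (by omega), mem_filter.mpr ⟨ht, hcon⟩⟩)
    have hsplit : ∑ n ∈ Icc 1 y, D t n = ∑ n ∈ Icc 1 (k * h), D t n + ∑ n ∈ Ioc (k * h) y, D t n := by
      rw [← sum_union]
      · congr 1
        ext n
        simp only [mem_union, mem_Icc, mem_Ioc]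
        constructor
        · rintro ⟨h1, h2⟩
          by_cases h3 : n ≤ k * h
          · exact Or.inl ⟨h1, h3⟩
          · exact Or.inr ⟨by omega, h2⟩
        · rintro (⟨h1, h2⟩ | ⟨h1, h2⟩)
          · exact ⟨h1, h2.trans hkh⟩
          · exact ⟨by omega, h2⟩
      · rw [disjoint_left]
        intro n h1 h2
        simp only [mem_Icc, mem_Ioc] at h1 h2
        omega
    have htail : ‖∑ n ∈ Ioc (k * h) y, D t n‖ ≤ h * L ^ C := by
      refine (norm_sum_le _ _).trans ?_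
      calc ∑ n ∈ Ioc (k * h) y, ‖D t n‖ ≤ ∑ _n ∈ Ioc (k * h) y, L ^ C := by
            refine sum_le_sum fun n hn => hD t ht n ?_
            rw [mem_Ioc] at hn
            rw [mem_Icc]
            exact ⟨by omega, hn.2.trans hy⟩
        _ = ((Ioc (k * h) y).card : ℝ) * L ^ C := by rw [sum_const, nsmul_eq_mul]
        _ ≤ h * L ^ C := by
            refine mul_le_mul_of_nonneg_right ?_ (hLp C).le
            rw [Nat.card_Ioc]
            exact_mod_cast (by omega : y - k * h ≤ h)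
    have htail2 : (h : ℝ) * L ^ C ≤ W := by
      calc (h : ℝ) * L ^ C ≤ z * L ^ C := mul_le_mul_of_nonneg_right hhz (hLp C).le
        _ = x / (L * L ^ A) := by
            rw [hz, show A + C + 1 = 1 + A + C by ring, pow_add, pow_add, pow_one]
            have := (hLp A).ne'
            have := (hLp C).ne'
            field_simp
        _ ≤ W := by
            rw [hW]
            refine div_le_div_of_nonneg_left hx0.le (by have := hLp A; positivity) ?_
            exact mul_le_mul_of_nonneg_right hL2 (hLp A).le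
    calc ‖∑ n ∈ Icc 1 y, D t n‖ ≤ ‖∑ n ∈ Icc 1 (k * h), D t n‖ + ‖∑ n ∈ Ioc (k * h) y, D t n‖ := by
          rw [hsplit]; exact norm_add_le _ _
      _ ≤ W + W := add_le_add hg (htail.trans htail2)
      _ = x / L ^ A := by
          rw [hW]
          have := (hLp A).ne'
          field_simp
          norm_num

private lemma prod_three {r : ℕ} (a b c : Fin r → ℝ) (k : Fin r) :
    ∏ i, (if i < k then a i else if i = k then b i else c i) =
      b k * (∏ j ∈ univ with j < k, a j) * ∏ j ∈ univ with k < j, c j := by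
  rw [Finset.prod_ite]
  have e1 : ∏ i ∈ univ.filter (fun i => ¬ i < k), (if i = k then b i else c i) =
      b k * ∏ j ∈ univ with k < j, c j := by
    have hk : k ∈ univ.filter (fun i : Fin r => ¬ i < k) := by simp
    rw [← Finset.mul_prod_erase _ _ hk]
    rw [if_pos rfl]
    congr 1
    have e2 : (univ.filter (fun i : Fin r => ¬ i < k)).erase k = univ.filter (fun j => k < j) := by
      ext j
      simp only [mem_erase, mem_filter, mem_univ, true_and, not_lt]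
      constructor
      · rintro ⟨h1, h2⟩
        exact lt_of_le_of_ne h2 (Ne.symm h1)
      · intro h
        exact ⟨ne_of_gt h, h.le⟩
    rw [e2]
    refine prod_congr rfl fun j hj => ?_
    rw [mem_filter] at hj
    rw [if_neg (ne_of_gt hj.2)]
  rw [e1]
  ring

private lemma tel {r : ℕ} (u v : Fin r → ℝ) :
    ∏ i, u i - ∏ i, v i = ∑ k, ∏ i, (if i < k then v i else if i = k then u i - v i else u i) := by
  have h1 := Finset.prod_sub_ordered (s := (univ : Finset (Fin r))) u (fun i => u i - v i)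
  simp only [sub_sub_cancel] at h1
  rw [h1, sub_sub_cancel]
  refine sum_congr rfl fun k _ => ?_
  rw [prod_three v (fun i => u i - v i) u k]

/-- The functions of the telescoping. -/
private noncomputable def gk {r : ℕ} (z : ℕ) (k i : Fin r) (n : ℕ) : ℝ :=
  if i < k then G1 z n else if i = k then dg z n else G0 n

private lemma gk_self {r : ℕ} (z : ℕ) (k : Fin r) (n : ℕ) : gk z k k n = dg z n := by
  unfold gk
  rw [if_neg (lt_irrefl _), if_pos rfl]

private lemma gk_tel {r : ℕ} (z n : ℕ) (a : Fin r → ℕ) :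
    ∏ i, G0 (n + a i) - ∏ i, G1 z (n + a i) = ∑ k, ∏ i, gk z k i (n + a i) := by
  rw [tel]
  rfl

private lemma abs_gk_le {r X z : ℕ} (hL : 2 ≤ Real.log X) (hD : (DZ z)⁻¹ ≤ Real.log X) (k i : Fin r) (n : ℕ) :
    |gk z k i n| ≤ Real.log X ^ 2 := by
  unfold gk
  split_ifs with h1 h2
  · rw [abs_of_nonneg (G1_nonneg z n)]
    exact G1_le hL hD n
  · exact abs_dg_le hL hD n
  · rw [abs_of_nonneg (G0_nonneg n)]
    have := G0_le n
    nlinarith

end NetAux

open NetAux in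
theorem short_w (r K A0 : ℕ) : ∃ B' C : ℕ, ∀ A : ℕ, ∀ᶠ X : ℕ in atTop, ∀ x : ℕ, Real.log X ^ C ≤ x →
    (x : ℝ) ≤ X / Real.log X ^ C → CorS A B' X x → ∀ w : ℕ → ℂ, (∀ n ∈ Icc 1 x, ‖w n‖ ≤ Real.log X ^ K) →
    ∃ E ⊆ Fintype.piFinset (fun _ : Fin r => Icc 1 X), (E.card : ℝ) ≤ (X : ℝ) ^ r / Real.log X ^ A0 ∧
      ∀ a ∈ Fintype.piFinset (fun _ : Fin r => Icc 1 X), a ∉ E → ∀ y : ℕ, y ≤ x →
        ‖∑ n ∈ Icc 1 y, w n * ((∏ i, G0 (n + a i) - ∏ i, G1 (zA A X) (n + a i) : ℝ) : ℂ)‖ ≤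
          x / Real.log X ^ A0 := by
  classical
  obtain ⟨C1, hC1⟩ : ∃ C1, C1 = K + 2 * r + 1 := ⟨_, rfl⟩
  obtain ⟨B2, hB2⟩ : ∃ B2, B2 = 4 * A0 + C1 + 6 + 1 := ⟨_, rfl⟩
  obtain ⟨B', C2, hsec⟩ := second r (K + 2) B2
  refine ⟨B', C2 + (A0 + C1 + 1), fun A => ?_⟩
  filter_upwards [hsec A, DZ_inv_le A, ev_log 2, ev_log ((r : ℝ) ^ 2), eventually_ge_atTop 1]
    with X hs hD hL2 hLr hX1
  intro x hx1 hx2 hcor w hw
  obtain ⟨L, hLdef⟩ : ∃ L, L = Real.log X := ⟨_, rfl⟩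
  have hL1 : 1 ≤ L := by rw [hLdef]; linarith
  have hL0 : 0 < L := by linarith
  have hLp : ∀ m : ℕ, 0 < L ^ m := fun m => pow_pos hL0 m
  have hgk : ∀ (k i : Fin r) (n : ℕ), |gk (zA A X) k i n| ≤ Real.log X ^ 2 :=
    fun k i n => abs_gk_le hL2 hD k i n
  have hG0 : ∀ n, |G0 n| ≤ L ^ 2 := by
    intro n
    rw [abs_of_nonneg (G0_nonneg n)]
    have h1 := G0_le n
    have h2 : 1 ≤ L ^ 2 := one_le_pow₀ hL1
    linarith
  have hG1 : ∀ n, |G1 (zA A X) n| ≤ L ^ 2 := by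
    intro n
    rw [abs_of_nonneg (G1_nonneg _ n), hLdef]
    exact G1_le hL2 hD n
  rw [← hLdef] at hs hx1 hx2 hw hLr hgk hL2 ⊢
  have hpow : L ^ (A0 + C1 + 1) ≤ x := by
    refine le_trans ?_ hx1
    exact pow_le_pow_right₀ hL1 (by omega)
  have hx1' : L ^ C2 ≤ x := le_trans (pow_le_pow_right₀ hL1 (by omega)) hx1
  have hx2' : (x : ℝ) ≤ X / L ^ C2 := by
    refine hx2.trans ?_
    exact div_le_div_of_nonneg_left (Nat.cast_nonneg _) (hLp _) (pow_le_pow_right₀ hL1 (by omega))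
  have hQ : (0 : ℝ) ≤ (X : ℝ) ^ r := pow_nonneg (Nat.cast_nonneg _) _
  refine net_gen A0 C1 L hL2 x hpow (Fintype.piFinset (fun _ : Fin r => Icc 1 X))
    (fun a n => w n * ((∏ i, G0 (n + a i) - ∏ i, G1 (zA A X) (n + a i) : ℝ) : ℂ)) ((X : ℝ) ^ r) hQ ?_ ?_
  · intro a _ n hn
    rw [norm_mul, Complex.norm_real, Real.norm_eq_abs]
    have h1 : |∏ i, G0 (n + a i)| ≤ (L ^ 2) ^ r := by
      rw [Finset.abs_prod]
      refine (Finset.prod_le_prod (fun i _ => abs_nonneg _) fun i _ => hG0 (n + a i)).trans ?_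
      rw [prod_const, card_univ, Fintype.card_fin]
    have h2 : |∏ i, G1 (zA A X) (n + a i)| ≤ (L ^ 2) ^ r := by
      rw [Finset.abs_prod]
      refine (Finset.prod_le_prod (fun i _ => abs_nonneg _) fun i _ => hG1 (n + a i)).trans ?_
      rw [prod_const, card_univ, Fintype.card_fin]
    have h3 : |∏ i, G0 (n + a i) - ∏ i, G1 (zA A X) (n + a i)| ≤ L * (L ^ 2) ^ r := by
      refine (abs_sub _ _).trans ?_
      have h4 : 0 ≤ (L ^ 2) ^ r := by positivity
      nlinarith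
    calc ‖w n‖ * |∏ i, G0 (n + a i) - ∏ i, G1 (zA A X) (n + a i)|
        ≤ L ^ K * (L * (L ^ 2) ^ r) := mul_le_mul (hw n hn) h3 (abs_nonneg _) (hLp _).le
      _ = L ^ C1 := by
          rw [hC1, ← pow_mul]
          ring
  · intro y hy
    obtain ⟨w', hw'⟩ : ∃ w' : ℕ → ℂ, w' = fun n => if n ≤ y then w n else 0 := ⟨_, rfl⟩
    have hw'b : ∀ n ∈ Icc 1 x, ‖w' n‖ ≤ L ^ (K + 2) := by
      intro n hn
      rw [hw']
      dsimp only
      split_ifs with h
      · exact (hw n hn).trans (pow_le_pow_right₀ hL1 (by omega))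
      · rw [norm_zero]
        exact (hLp _).le
    have hsk : ∀ k : Fin r, ∑ a ∈ Fintype.piFinset (fun _ : Fin r => Icc 1 X),
        ‖∑ n ∈ Icc 1 x, w' n * ∏ i, (gk (zA A X) k i (n + a i) : ℂ)‖ ^ 2 ≤
          (X : ℝ) ^ r * ((x : ℝ) ^ 2 / L ^ B2) := by
      intro k
      refine hs x hx1' hx2' hcor w' (fun i n => gk (zA A X) k i n) k hw'b ?_ ?_
      · intro i n _
        exact (hgk k i n).trans (pow_le_pow_right₀ hL1 (by omega))
      · intro n
        exact gk_self _ _ _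
    have hsplit : ∀ a : Fin r → ℕ, ∑ n ∈ Icc 1 y,
        w n * ((∏ i, G0 (n + a i) - ∏ i, G1 (zA A X) (n + a i) : ℝ) : ℂ) =
        ∑ k : Fin r, ∑ n ∈ Icc 1 x, w' n * ∏ i, (gk (zA A X) k i (n + a i) : ℂ) := by
      intro a
      rw [sum_comm]
      have e1 : Icc 1 y = (Icc 1 x).filter (fun n => n ≤ y) := by
        ext n
        simp only [mem_Icc, mem_filter]
        omega
      rw [e1, sum_filter]
      refine sum_congr rfl fun n _ => ?_
      rw [hw']
      dsimp only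
      split_ifs with h
      · rw [gk_tel]
        push_cast
        rw [mul_sum]
      · simp
    have hone : ∀ a : Fin r → ℕ, ‖∑ n ∈ Icc 1 y,
        w n * ((∏ i, G0 (n + a i) - ∏ i, G1 (zA A X) (n + a i) : ℝ) : ℂ)‖ ^ 2 ≤
        (r : ℝ) * ∑ k : Fin r, ‖∑ n ∈ Icc 1 x, w' n * ∏ i, (gk (zA A X) k i (n + a i) : ℂ)‖ ^ 2 := by
      intro a
      rw [hsplit a]
      have h1 := norm_sum_le (univ : Finset (Fin r))
        (fun k => ∑ n ∈ Icc 1 x, w' n * ∏ i, (gk (zA A X) k i (n + a i) : ℂ))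
      have h2 := pow_le_pow_left₀ (norm_nonneg _) h1 2
      refine h2.trans ?_
      have h3 := sq_sum_le_card_mul_sum_sq (s := (univ : Finset (Fin r)))
        (f := fun k => ‖∑ n ∈ Icc 1 x, w' n * ∏ i, (gk (zA A X) k i (n + a i) : ℂ)‖)
      rw [card_univ, Fintype.card_fin] at h3
      exact h3
    have h5 : ∑ a ∈ Fintype.piFinset (fun _ : Fin r => Icc 1 X), ‖∑ n ∈ Icc 1 y,
        w n * ((∏ i, G0 (n + a i) - ∏ i, G1 (zA A X) (n + a i) : ℝ) : ℂ)‖ ^ 2 ≤
        (r : ℝ) * ∑ k : Fin r, ∑ a ∈ Fintype.piFinset (fun _ : Fin r => Icc 1 X),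
          ‖∑ n ∈ Icc 1 x, w' n * ∏ i, (gk (zA A X) k i (n + a i) : ℂ)‖ ^ 2 := by
      refine (sum_le_sum fun a _ => hone a).trans ?_
      rw [← mul_sum, sum_comm]
    refine h5.trans ?_
    have h6 : ∑ k : Fin r, ∑ a ∈ Fintype.piFinset (fun _ : Fin r => Icc 1 X),
          ‖∑ n ∈ Icc 1 x, w' n * ∏ i, (gk (zA A X) k i (n + a i) : ℂ)‖ ^ 2 ≤
          (r : ℝ) * ((X : ℝ) ^ r * ((x : ℝ) ^ 2 / L ^ B2)) := by
      refine (sum_le_sum fun k _ => hsk k).trans ?_
      rw [sum_const, card_univ, Fintype.card_fin, nsmul_eq_mul]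
    have hr0 : (0 : ℝ) ≤ r := Nat.cast_nonneg _
    refine (mul_le_mul_of_nonneg_left h6 hr0).trans ?_
    have e2 : L ^ B2 = L ^ (4 * A0 + C1 + 6) * L := by rw [hB2, pow_succ]
    rw [e2]
    have hp := hLp (4 * A0 + C1 + 6)
    have h7 : (r : ℝ) * ((r : ℝ) * ((X : ℝ) ^ r * ((x : ℝ) ^ 2 / (L ^ (4 * A0 + C1 + 6) * L)))) =
        ((r : ℝ) ^ 2 / L) * ((X : ℝ) ^ r * ((x : ℝ) ^ 2 / L ^ (4 * A0 + C1 + 6))) := by
      field_simp
    rw [h7]
    have h8 : (r : ℝ) ^ 2 / L ≤ 1 := by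
      rw [div_le_one hL0]
      exact hLr
    have h9 : 0 ≤ (X : ℝ) ^ r * ((x : ℝ) ^ 2 / L ^ (4 * A0 + C1 + 6)) := by positivity
    calc _ ≤ 1 * ((X : ℝ) ^ r * ((x : ℝ) ^ 2 / L ^ (4 * A0 + C1 + 6))) :=
          mul_le_mul_of_nonneg_right h8 h9
      _ = _ := one_mul _

end Pool.Agent.SHT
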