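import Pool.Agent.Lib.SHT.Corr
import Pool.Agent.Lib.SHT.Net
import Pool.Agent.Lib.SHT.Brun
import Pool.Agent.Lib.SHT.Long

/-!
# Almost all tuples of `[1, X]`: the Hardy-Littlewood formula for all `x` from `X^(1/6+ε)` to `X^(6-ε)`
-/

set_option autoImplicit false

open Finset Filter

namespace Pool.Agent.SHT

open Pool.Agent.HLB Pool.Agent.HL Pool.Agent.HLT Pool.Agent.HLU Pool.Agent.VK Pool.Agent.VN

lemma sum_G0 {r : ℕ} (f : Fin r → ℕ) (y : ℕ) :
    ∑ n ∈ Icc 1 y, ∏ i, G0 (n + f i) = (((Icc 1 y).filter (fun n : ℕ => ∀ i, (n + f i).Prime)).card : ℝ) := by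
  classical
  rw [Finset.card_filter]
  push_cast
  refine Finset.sum_congr rfl fun n _ => ?_
  unfold G0
  by_cases h : ∀ i, (n + f i).Prime
  · rw [if_pos h]
    exact Finset.prod_eq_one fun i _ => if_pos (h i)
  · rw [if_neg h]
    push Not at h
    obtain ⟨i, hi⟩ := h
    exact Finset.prod_eq_zero (Finset.mem_univ i) (if_neg hi)

lemma ev_pow_le (a : ℕ) (c ε : ℝ) (hε : 0 < ε) : ∀ᶠ X : ℕ in atTop, c * Real.log X ^ a ≤ (X : ℝ) ^ ε := by
  have h1 := (isLittleO_log_rpow_rpow_atTop (a : ℝ) hε).bound (show (0 : ℝ) < 1 / (|c| + 1) by positivity)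
  filter_upwards [tendsto_natCast_atTop_atTop.eventually h1, ev_log 1] with X hX hL
  rw [Real.rpow_natCast, Real.norm_of_nonneg (by positivity), Real.norm_of_nonneg (by positivity),
    div_mul_eq_mul_div, one_mul, le_div_iff₀ (by positivity)] at hX
  have h2 : 0 ≤ Real.log (X : ℝ) ^ a := by positivity
  nlinarith [le_abs_self c]

/-- Dyadic short ranges. -/
theorem short_x (r A : ℕ) (ε : ℝ) (hε : 0 < ε) : ∃ C x0 : ℕ, ∀ X : ℕ, x0 ≤ X →
    ∃ E ⊆ Fintype.piFinset (fun _ : Fin r => Icc 1 X), (E.card : ℝ) ≤ (X : ℝ) ^ r / Real.log X ^ A ∧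
    ∀ f ∈ Fintype.piFinset (fun _ : Fin r => Icc 1 X), f ∉ E → Function.Injective f →
      ∀ x : ℕ, (X : ℝ) ^ (1 / 6 + ε) ≤ x → 2 * (x : ℝ) * Real.log X ^ C ≤ X → ∀ y : ℕ, y ≤ x →
        |(((Icc 1 y).filter (fun n : ℕ => ∀ i, (n + f i).Prime)).card : ℝ) - SI f * ∑ n ∈ Icc 2 y, hl univ f n| ≤
          x / Real.log X ^ A := by
  classical
  obtain ⟨B1, C1, h1⟩ := short_w r 0 (A + 3)
  obtain ⟨K2, B2, C2, h2⟩ := cor_of_msp B1
  obtain ⟨A0, h3⟩ := model_short r (A + 2) (1 / 6) (by norm_num)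
  obtain ⟨A', hA', h4⟩ := msp_interval K2 B2 A0 ε hε
  have hev := (((h1 A').and (h2 A')).and ((h3 A' hA').and h4)).and ((ev_log 4).and (ev_pow_le C1 1 (1 / 6 + ε) (by linarith)))
  obtain ⟨x0, hx0⟩ := eventually_atTop.mp hev
  refine ⟨max C1 C2, max x0 1, fun X hX => ?_⟩
  obtain ⟨⟨⟨h5, h6⟩, h7, h8⟩, hL, hp⟩ := hx0 X (le_trans (le_max_left _ _) hX)
  have hX1 : 1 ≤ X := le_trans (le_max_right _ _) hX
  have hXr : (0 : ℝ) < X := by exact_mod_cast hX1
  have hXr1 : (1 : ℝ) ≤ X := by exact_mod_cast hX1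
  have hL0 : 0 < Real.log X := by linarith
  have hL1 : 1 ≤ Real.log X := by linarith
  rw [one_mul] at hp
  set P := Fintype.piFinset (fun _ : Fin r => Icc 1 X) with hP
  have key : ∀ j : ℕ, ∃ E ⊆ P, (E.card : ℝ) ≤ (X : ℝ) ^ r / Real.log X ^ (A + 3) ∧
      ((X : ℝ) ^ (1 / 6 + ε) ≤ ((2 ^ j : ℕ) : ℝ) → ((2 ^ j : ℕ) : ℝ) * Real.log X ^ (max C1 C2) ≤ X →
        ∀ a ∈ P, a ∉ E → ∀ y : ℕ, y ≤ 2 ^ j →
          ‖∑ n ∈ Icc 1 y, (1 : ℂ) * ((∏ i, G0 (n + a i) - ∏ i, G1 (zA A' X) (n + a i) : ℝ) : ℂ)‖ ≤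
            ((2 ^ j : ℕ) : ℝ) / Real.log X ^ (A + 3)) := by
    intro j
    by_cases hj : (X : ℝ) ^ (1 / 6 + ε) ≤ ((2 ^ j : ℕ) : ℝ) ∧ ((2 ^ j : ℕ) : ℝ) * Real.log X ^ (max C1 C2) ≤ X
    · have hx1 : ((2 ^ j : ℕ) : ℝ) ≤ X / Real.log X ^ C1 := by
        rw [le_div_iff₀ (by positivity)]
        exact (mul_le_mul_of_nonneg_left (pow_le_pow_right₀ hL1 (le_max_left _ _)) (Nat.cast_nonneg _)).trans hj.2
      have hx2 : ((2 ^ j : ℕ) : ℝ) ≤ X / Real.log X ^ C2 := by
        rw [le_div_iff₀ (by positivity)]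
        exact (mul_le_mul_of_nonneg_left (pow_le_pow_right₀ hL1 (le_max_right _ _)) (Nat.cast_nonneg _)).trans hj.2
      have hx3 : 2 ^ j ≤ X := by
        have h9 : ((2 ^ j : ℕ) : ℝ) ≤ X := hx1.trans (div_le_self hXr.le (one_le_pow₀ hL1))
        exact_mod_cast h9
      have hC := h6 (2 ^ j) hx2 (h8 (2 ^ j) hj.1 hx3)
      obtain ⟨E, e1, e2, e3⟩ := h5 (2 ^ j) (hp.trans hj.1) hx1 hC (fun _ => 1) (fun n _ => by
        rw [norm_one, pow_zero])
      exact ⟨E, e1, e2, fun _ _ => e3⟩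
    · refine ⟨∅, Finset.empty_subset _, ?_, fun a b => absurd ⟨a, b⟩ hj⟩
      rw [Finset.card_empty, Nat.cast_zero]
      positivity
  choose E e1 e2 e3 using key
  set J : ℕ := ⌊2 * Real.log X⌋₊ + 1 with hJ
  refine ⟨(range J).biUnion E, Finset.biUnion_subset.mpr fun j _ => e1 j, ?_, fun f hf hfE hinj x hx1 hx2 y hy => ?_⟩
  · have h9 : (J : ℝ) ≤ Real.log X ^ 2 := by
      have h10 : (⌊2 * Real.log X⌋₊ : ℝ) ≤ 2 * Real.log X := Nat.floor_le (by positivity)
      rw [hJ]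
      push_cast
      nlinarith
    calc (((range J).biUnion E).card : ℝ) ≤ ∑ j ∈ range J, ((E j).card : ℝ) := by
          exact_mod_cast Finset.card_biUnion_le
      _ ≤ ∑ _j ∈ range J, (X : ℝ) ^ r / Real.log X ^ (A + 3) := Finset.sum_le_sum fun j _ => e2 j
      _ = J * ((X : ℝ) ^ r / Real.log X ^ (A + 3)) := by
          rw [Finset.sum_const, Finset.card_range, nsmul_eq_mul]
      _ ≤ Real.log X ^ 2 * ((X : ℝ) ^ r / Real.log X ^ (A + 3)) := mul_le_mul_of_nonneg_right h9 (by positivity)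
      _ ≤ (X : ℝ) ^ r / Real.log X ^ A := by
          rw [mul_div_assoc', div_le_div_iff₀ (by positivity) (by positivity), pow_add]
          have h10 : 0 ≤ (X : ℝ) ^ r * Real.log X ^ A := by positivity
          have h11 : Real.log X ^ 2 ≤ Real.log X ^ 3 := pow_le_pow_right₀ hL1 (by norm_num)
          nlinarith
  · -- the dyadic number
    have hx0' : 1 ≤ x := by
      have h9 : (1 : ℝ) ≤ (X : ℝ) ^ (1 / 6 + ε) := Real.one_le_rpow hXr1 (by linarith)
      exact_mod_cast h9.trans hx1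
    obtain ⟨j, hj1, hj2⟩ : ∃ j : ℕ, x ≤ 2 ^ j ∧ 2 ^ j ≤ 2 * x := by
      refine ⟨Nat.clog 2 x, Nat.le_pow_clog (by norm_num) x, ?_⟩
      rcases Nat.lt_or_ge 1 x with h | h
      · have h9 := Nat.pow_pred_clog_lt_self (b := 2) (by norm_num) h
        have h10 : 0 < Nat.clog 2 x := Nat.clog_pos (by norm_num) h
        have h11 : 2 ^ Nat.clog 2 x = 2 * 2 ^ (Nat.clog 2 x).pred := by
          rw [← pow_succ']
          congr 1
          have := Nat.succ_pred_eq_of_pos h10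
          omega
        omega
      · have : x = 1 := by omega
        subst this
        simp
    have hj1r : (x : ℝ) ≤ ((2 ^ j : ℕ) : ℝ) := by exact_mod_cast hj1
    have hj2r : ((2 ^ j : ℕ) : ℝ) ≤ 2 * x := by exact_mod_cast hj2
    have hCC : (0 : ℝ) < Real.log X ^ (max C1 C2) := by positivity
    have hc2 : ((2 ^ j : ℕ) : ℝ) * Real.log X ^ (max C1 C2) ≤ X :=
      (mul_le_mul_of_nonneg_right hj2r hCC.le).trans hx2
    have hxX : x ≤ X := by
      have h9 : (x : ℝ) ≤ X := by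
        have h10 : (1 : ℝ) ≤ Real.log X ^ (max C1 C2) := one_le_pow₀ hL1
        have h11 : (0 : ℝ) ≤ x := Nat.cast_nonneg x
        nlinarith
      exact_mod_cast h9
    have hjJ : j ∈ range J := by
      rw [Finset.mem_range, hJ, Nat.lt_succ_iff]
      apply Nat.le_floor
      have h9 : ((2 ^ j : ℕ) : ℝ) ≤ X := by
        have h10 : (1 : ℝ) ≤ Real.log X ^ (max C1 C2) := one_le_pow₀ hL1
        have h11 : (0 : ℝ) ≤ ((2 ^ j : ℕ) : ℝ) := Nat.cast_nonneg _
        nlinarith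
      have h10 := Real.log_le_log (by positivity) h9
      rw [Nat.cast_pow, Real.log_pow] at h10
      have h11 : (0.6931471803 : ℝ) < Real.log 2 := Real.log_two_gt_d9
      push_cast at h10
      have h12 : (0 : ℝ) ≤ j := Nat.cast_nonneg j
      nlinarith
    have hne : f ∉ E j := fun h => hfE (Finset.mem_biUnion.mpr ⟨j, hjJ, h⟩)
    have g1 := e3 j (hx1.trans hj1r) hc2 f hf hne y (hy.trans hj1)
    have g2 : |(((Icc 1 y).filter (fun n : ℕ => ∀ i, (n + f i).Prime)).card : ℝ) -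
        ∑ n ∈ Icc 1 y, ∏ i, G1 (zA A' X) (n + f i)| ≤ 2 * x / Real.log X ^ (A + 3) := by
      have h9 : (∑ n ∈ Icc 1 y, (1 : ℂ) * ((∏ i, G0 (n + f i) - ∏ i, G1 (zA A' X) (n + f i) : ℝ) : ℂ)) =
          (((((Icc 1 y).filter (fun n : ℕ => ∀ i, (n + f i).Prime)).card : ℝ) -
            ∑ n ∈ Icc 1 y, ∏ i, G1 (zA A' X) (n + f i) : ℝ) : ℂ) := by
        rw [← sum_G0, ← Finset.sum_sub_distrib]
        push_cast
        refine Finset.sum_congr rfl fun n _ => ?_
        ring
      rw [h9, Complex.norm_real, Real.norm_eq_abs] at g1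
      exact g1.trans (div_le_div_of_nonneg_right hj2r (by positivity))
    have hft : ∀ i, f i ≤ 2 * X := by
      intro i
      have := (mem_Icc.mp (Fintype.mem_piFinset.mp hf i)).2
      omega
    have hx16 : (X : ℝ) ^ (1 / 6 : ℝ) ≤ x :=
      (Real.rpow_le_rpow_of_exponent_le hXr1 (by linarith)).trans hx1
    have g3 := h7 f hinj hft x hx16 hxX y hy
    have g4 : |(((Icc 1 y).filter (fun n : ℕ => ∀ i, (n + f i).Prime)).card : ℝ) - SI f * ∑ n ∈ Icc 2 y, hl univ f n| ≤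
        2 * x / Real.log X ^ (A + 3) + x / Real.log X ^ (A + 2) := (abs_sub_le _ _ _).trans (add_le_add g2 g3)
    refine g4.trans ?_
    have hxr : (0 : ℝ) ≤ x := Nat.cast_nonneg x
    have g5 : 2 * (x : ℝ) / Real.log X ^ (A + 3) ≤ x / Real.log X ^ (A + 2) := by
      rw [div_le_div_iff₀ (by positivity) (by positivity), pow_succ (Real.log X) (A + 2)]
      have : 0 ≤ (x : ℝ) * Real.log X ^ (A + 2) := by positivity
      nlinarith
    have g6 : (x : ℝ) / Real.log X ^ (A + 2) + x / Real.log X ^ (A + 2) ≤ x / Real.log X ^ A := by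
      rw [← two_mul, mul_div_assoc', div_le_div_iff₀ (by positivity) (by positivity), pow_add]
      have h9 : 0 ≤ (x : ℝ) * Real.log X ^ A := by positivity
      have h10 : (2 : ℝ) ≤ Real.log X ^ 2 := by nlinarith
      calc 2 * (x : ℝ) * Real.log X ^ A = (x * Real.log X ^ A) * 2 := by ring
        _ ≤ (x * Real.log X ^ A) * Real.log X ^ 2 := mul_le_mul_of_nonneg_left h10 h9
        _ = x * (Real.log X ^ A * Real.log X ^ 2) := by ring
    linarith

/-- All ranges. -/
theorem all_x (m A : ℕ) (ε : ℝ) (hε : 0 < ε) : ∃ x0 : ℕ, ∀ X : ℕ, x0 ≤ X →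
    ∃ E ⊆ Fintype.piFinset (fun _ : Fin (m + 1) => Icc 1 X), (E.card : ℝ) ≤ (X : ℝ) ^ (m + 1) / Real.log X ^ A ∧
    ∀ f ∈ Fintype.piFinset (fun _ : Fin (m + 1) => Icc 1 X), f ∉ E → Function.Injective f ∧
      ∀ x : ℕ, (X : ℝ) ^ (1 / 6 + ε) ≤ x → (x : ℝ) ^ (1 / 6 + ε) ≤ X → ∀ y : ℕ, y ≤ x →
        |(((Icc 1 y).filter (fun n : ℕ => ∀ i, (n + f i).Prime)).card : ℝ) - SI f * ∑ n ∈ Icc 2 y, hl univ f n| ≤
          x / Real.log x ^ A := by
  classical
  obtain ⟨C, x1, h1⟩ := short_x (m + 1) (A + 1) ε hε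
  obtain ⟨x2, h2⟩ := long_x m (A + C + 2) ε hε
  obtain ⟨x3, h3⟩ := eventually_atTop.mp (ev_log 2)
  refine ⟨max (max x1 x2) (max x3 1), fun X hX => ?_⟩
  obtain ⟨E1, a1, a2, a3⟩ := h1 X (le_trans (le_trans (le_max_left _ _) (le_max_left _ _)) hX)
  obtain ⟨E2, b1, b2, b3⟩ := h2 X (le_trans (le_trans (le_max_right _ _) (le_max_left _ _)) hX)
  have hL : 2 ≤ Real.log X := h3 X (le_trans (le_trans (le_max_left _ _) (le_max_right _ _)) hX)
  have hX1 : 1 ≤ X := le_trans (le_trans (le_max_right _ _) (le_max_right _ _)) hX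
  have hXr : (0 : ℝ) < X := by exact_mod_cast hX1
  have hXr1 : (1 : ℝ) ≤ X := by exact_mod_cast hX1
  have hL0 : 0 < Real.log X := by linarith
  have hL1 : 1 ≤ Real.log X := by linarith
  refine ⟨E1 ∪ E2, Finset.union_subset a1 b1, ?_, fun f hf hfE => ?_⟩
  · have g1 : ((E1 ∪ E2).card : ℝ) ≤ E1.card + E2.card := by exact_mod_cast Finset.card_union_le _ _
    have g2 : (X : ℝ) ^ (m + 1) / Real.log X ^ (A + C + 2) ≤ (X : ℝ) ^ (m + 1) / Real.log X ^ (A + 1) :=
      div_le_div_of_nonneg_left (by positivity) (by positivity) (pow_le_pow_right₀ hL1 (by omega))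
    have g3 : (X : ℝ) ^ (m + 1) / Real.log X ^ (A + 1) + (X : ℝ) ^ (m + 1) / Real.log X ^ (A + 1) ≤
        (X : ℝ) ^ (m + 1) / Real.log X ^ A := by
      rw [← two_mul, mul_div_assoc', div_le_div_iff₀ (by positivity) (by positivity), pow_succ (Real.log X) A]
      have : 0 ≤ (X : ℝ) ^ (m + 1) * Real.log X ^ A := by positivity
      nlinarith
    linarith
  · rw [Finset.mem_union, not_or] at hfE
    obtain ⟨hinj, b4⟩ := b3 f hf hfE.2
    refine ⟨hinj, fun x hx1 hx2 y hy => ?_⟩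
    have hx0 : 1 ≤ x := by
      have h9 : (1 : ℝ) ≤ (X : ℝ) ^ (1 / 6 + ε) := Real.one_le_rpow hXr1 (by linarith)
      exact_mod_cast h9.trans hx1
    have hxr : (0 : ℝ) < x := by exact_mod_cast hx0
    rcases Nat.lt_or_ge x X with hlt | hge
    · have hltr : (x : ℝ) ≤ X := by exact_mod_cast hlt.le
      have hlx0 : 0 ≤ Real.log x := Real.log_nonneg (by exact_mod_cast hx0)
      have hlog : Real.log x ≤ Real.log X := Real.log_le_log hxr hltr
      -- the error in terms of `log X`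
      suffices h : |(((Icc 1 y).filter (fun n : ℕ => ∀ i, (n + f i).Prime)).card : ℝ) - SI f * ∑ n ∈ Icc 2 y, hl univ f n| ≤
          x / Real.log X ^ A by
        refine h.trans ?_
        rcases hlx0.eq_or_lt with h0 | h0
        · -- `x = 1` is impossible for large `X`
          exfalso
          have h9 : x = 1 := by
            rcases Real.log_eq_zero.mp h0.symm with h | h | h
            · exact absurd h (by positivity)
            · exact_mod_cast h
            · linarith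
          rw [h9, Nat.cast_one] at hx1
          have h10 : (1 : ℝ) < (X : ℝ) ^ (1 / 6 + ε) := by
            apply Real.one_lt_rpow _ (by linarith)
            by_contra hcon
            have : Real.log X ≤ 0 := Real.log_nonpos hXr.le (not_lt.mp hcon)
            linarith
          linarith
        · exact div_le_div_of_nonneg_left hxr.le (by positivity) (pow_le_pow_left₀ hlx0 hlog A)
      by_cases hc : 2 * (x : ℝ) * Real.log X ^ C ≤ X
      · refine (a3 f hf hfE.1 hinj x hx1 hc y hy).trans ?_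
        exact div_le_div_of_nonneg_left hxr.le (by positivity) (pow_le_pow_right₀ hL1 (by omega))
      · have hXX : (X : ℝ) ^ (1 / 6 + ε) ≤ X := hx1.trans hltr
        refine (b4 X le_rfl hXX y (by omega)).trans ?_
        rw [not_le] at hc
        rw [div_le_div_iff₀ (by positivity) (by positivity)]
        have h9 : Real.log X ^ (A + C + 2) = Real.log X ^ A * Real.log X ^ C * Real.log X ^ 2 := by
          rw [pow_add, pow_add]
        rw [h9]
        have h10 : 0 < Real.log X ^ A := by positivity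
        have h11 : 0 < Real.log X ^ C := by positivity
        have h12 : (4 : ℝ) ≤ Real.log X ^ 2 := by nlinarith
        calc (X : ℝ) * Real.log X ^ A ≤ (2 * x * Real.log X ^ C) * Real.log X ^ A :=
              mul_le_mul_of_nonneg_right hc.le h10.le
          _ = x * (Real.log X ^ A * Real.log X ^ C * 2) := by ring
          _ ≤ x * (Real.log X ^ A * Real.log X ^ C * Real.log X ^ 2) := by
              refine mul_le_mul_of_nonneg_left ?_ hxr.le
              exact mul_le_mul_of_nonneg_left (by linarith) (by positivity)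
    · refine (b4 x hge hx2 y hy).trans ?_
      have hLx : 1 ≤ Real.log x := hL1.trans (Real.log_le_log hXr (by exact_mod_cast hge))
      exact div_le_div_of_nonneg_left hxr.le (by positivity) (pow_le_pow_right₀ hLx (by omega))

end Pool.Agent.SHT
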