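import Pool.Agent.Lib.SHT.Defs

/-!
# Module Corr: the correlations of `dg` from the mean square property

`L = log X`. Constants: `C1 = B + 20`, `C = 2 * C1`, `B' = B + 4` (or larger). `g = dg (zA A X) = ff / log` (`dg_eq`). Let `m0 = ⌈X / L^C1⌉₊`,
`w m = ff m * (1 / log m)^2` for `m ≥ m0`, `0` for `m < m0` (as a complex function). `|ff m| ≤ L^2` for `m ≤ 2 X` (`lp_le_sq`, `nuz_le`, `DZ_inv_le A`),
`1 / log m ≤ 2` for all natural `m` (`inv_log_le`), so `‖w m‖ ≤ L^3`: `K' = 3`. `MSP A 3 B' X (Icc 1 x)`: `∑_{d ∈ Icc 1 x} ‖∑_{m ∈ Icc 1 X} w m * ff (m + d)‖^2 ≤ x X^2 / L^B'`.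
For `1 ≤ d ≤ x ≤ X / L^C`: `cor g X d - ∑_m w m ff (m + d) = ∑_{m < m0} g m g (m + d) + ∑_{m0 ≤ m ≤ X} g m ff (m + d) (1 / log (m + d) - 1 / log m)`.
First sum: at most `m0 L^4`. Second: `0 ≤ 1 / log m - 1 / log (m + d) ≤ log (1 + d / m) / (log m)^2 ≤ d / m ≤ 1 / L^(C - C1)` for `m ≥ m0` (`log m ≥ 1`), so at most `X L^4 / L^(C - C1)`.
So the difference is at most `3 X L^4 / L^C1`, its square `≤ X^2 / L^(B + 4)`, and `(u + v)^2 ≤ 2 u^2 + 2 v^2`.
-/

set_option autoImplicit false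

open Finset Filter

namespace Pool.Agent.SHT

open Pool.Agent.HLB Pool.Agent.HL Pool.Agent.HLT Pool.Agent.HLU Pool.Agent.VN

namespace CorrAux

lemma ev_pow1 (N : ℕ) : ∀ᶠ X : ℕ in atTop, Real.log X ^ N ≤ X := by
  filter_upwards [Pool.Agent.HLU.ev_pow N 0] with X hX
  rwa [pow_zero, div_one] at hX

lemma abs_ff_le {X A n : ℕ} (hL : 2 ≤ Real.log X) (hD : (DZ (zA A X))⁻¹ ≤ Real.log X)
    (hn : n ≤ 2 * X) : |ff (zA A X) n| ≤ Real.log X ^ 2 := by
  have h1 := lp_le_sq hL hn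
  have h2 := lp_nonneg n
  have h3 := (nuz_le (zA A X) n).trans hD
  have h4 := nuz_nonneg (zA A X) n
  unfold ff
  rw [abs_le]
  constructor
  · nlinarith
  · linarith

lemma inv_log_sub {m d : ℕ} (hm : 3 ≤ m) :
    |1 / Real.log ((m + d : ℕ) : ℝ) - 1 / Real.log (m : ℝ)| ≤ d / m := by
  have hm0 : (0 : ℝ) < m := by exact_mod_cast (by omega : 0 < m)
  have hm3 : (3 : ℝ) ≤ m := by exact_mod_cast hm
  have hd0 : (0 : ℝ) ≤ d := Nat.cast_nonneg d
  have h1 : 1 ≤ Real.log (m : ℝ) := by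
    rw [Real.le_log_iff_exp_le hm0]
    have := Real.exp_one_lt_d9
    linarith
  have h2 : Real.log (m : ℝ) ≤ Real.log ((m + d : ℕ) : ℝ) := by
    apply Real.log_le_log hm0
    push_cast
    linarith
  have h3 : Real.log ((m + d : ℕ) : ℝ) - Real.log (m : ℝ) ≤ d / m := by
    rw [← Real.log_div (by push_cast; positivity) hm0.ne']
    have h4 : (((m + d : ℕ) : ℝ)) / m = 1 + d / m := by
      push_cast
      field_simp
    rw [h4]
    have h5 := Real.log_le_sub_one_of_pos (show (0 : ℝ) < 1 + d / m by positivity)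
    linarith
  set a := Real.log (m : ℝ)
  set b := Real.log ((m + d : ℕ) : ℝ)
  have ha : 0 < a := by linarith
  have hb : 0 < b := by linarith
  have h6 : 1 / b - 1 / a = -((b - a) / (a * b)) := by
    field_simp
    ring
  rw [h6, abs_neg, abs_of_nonneg (div_nonneg (by linarith) (by positivity))]
  refine le_trans ?_ h3
  rw [div_le_iff₀ (by positivity)]
  have h7 : 1 ≤ a * b := by nlinarith
  nlinarith

end CorrAux

open CorrAux in
theorem cor_of_msp (B : ℕ) : ∃ K' B' C : ℕ, ∀ A : ℕ, ∀ᶠ X : ℕ in atTop, ∀ x : ℕ, (x : ℝ) ≤ X / Real.log X ^ C →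
    MSP A K' B' X (Icc 1 x) → CorS A B X x := by
  refine ⟨3, B + 4, 2 * (B + 20), fun A => ?_⟩
  filter_upwards [ev_log 10, DZ_inv_le A, ev_pow1 (2 * (B + 20) + 2)] with X hL hD hP x hx hM
  set L : ℝ := Real.log X with hLdef
  set z : ℕ := zA A X with hz
  have hL0 : (0 : ℝ) < L := by linarith
  have hL1 : (1 : ℝ) ≤ L := by linarith
  have hLp : ∀ k : ℕ, 0 < L ^ k := fun k => pow_pos hL0 k
  have hLp1 : ∀ k : ℕ, 1 ≤ L ^ k := fun k => one_le_pow₀ hL1
  have hX0 : (0 : ℝ) < X := lt_of_lt_of_le (hLp _) hP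
  set Y : ℝ := X / L ^ (B + 20) with hY
  have hY0 : 0 < Y := div_pos hX0 (hLp _)
  have hYbig : L ^ (B + 20 + 2) ≤ Y := by
    rw [hY, le_div_iff₀ (hLp _), ← pow_add]
    refine le_trans (le_of_eq ?_) hP
    congr 1
    ring
  have hY3 : 3 ≤ Y := by
    have h1 : L ^ 1 ≤ L ^ (B + 20 + 2) := pow_le_pow_right₀ hL1 (by omega)
    rw [pow_one] at h1
    linarith
  have hxX : (x : ℝ) ≤ X := hx.trans (div_le_self hX0.le (hLp1 _))
  have hxX' : x ≤ X := by exact_mod_cast hxX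
  set m0 : ℕ := ⌈Y⌉₊ with hm0
  have hm0l : Y ≤ m0 := Nat.le_ceil _
  have hm0u : (m0 : ℝ) ≤ 2 * Y := by
    have h1 := Nat.ceil_lt_add_one hY0.le
    linarith
  set w : ℕ → ℝ := fun m => if m < m0 then 0 else ff z m * (1 / Real.log (m : ℝ)) ^ 2 with hw
  set S : ℕ → ℝ := fun d => ∑ m ∈ Icc 1 X, w m * ff z (m + d) with hS
  have hff : ∀ n : ℕ, n ≤ 2 * X → |ff z n| ≤ L ^ 2 := fun n hn =>
    abs_ff_le (by linarith) hD hn
  have hdg : ∀ n : ℕ, |dg z n| ≤ L ^ 2 := fun n => abs_dg_le (by linarith) hD n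
  have hwb : ∀ n ∈ Icc 1 X, ‖((w n : ℝ) : ℂ)‖ ≤ L ^ 3 := by
    intro n hn
    rw [Complex.norm_real, Real.norm_eq_abs, hw]
    dsimp only
    split_ifs with h
    · rw [abs_zero]
      exact (hLp 3).le
    · rw [abs_mul, abs_of_nonneg (sq_nonneg (1 / Real.log (n : ℝ)))]
      have h1 := hff n (by have := (mem_Icc.1 hn).2; omega)
      have h2 := inv_log_le n
      have h3 := inv_log_nonneg n
      have h4 : (1 / Real.log (n : ℝ)) ^ 2 ≤ 4 := by nlinarith
      have h5 : |ff z n| * (1 / Real.log (n : ℝ)) ^ 2 ≤ L ^ 2 * 4 :=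
        mul_le_mul h1 h4 (sq_nonneg _) (hLp 2).le
      refine h5.trans ?_
      have h6 : L ^ 3 = L ^ 2 * L := by ring
      rw [h6]
      exact mul_le_mul_of_nonneg_left (by linarith) (hLp 2).le
  have hmain := hM.2 (fun n => ((w n : ℝ) : ℂ)) hwb
  have hSn : ∀ u : ℕ, ‖∑ n ∈ Icc 1 X, ((w n : ℝ) : ℂ) * (ff z (n + u) : ℂ)‖ ^ 2 = S u ^ 2 := by
    intro u
    have h1 : ∑ n ∈ Icc 1 X, ((w n : ℝ) : ℂ) * (ff z (n + u) : ℂ) = ((S u : ℝ) : ℂ) := by
      rw [hS]
      push_cast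
      rfl
    rw [h1, Complex.norm_real, Real.norm_eq_abs, sq_abs]
  rw [Finset.sum_congr rfl fun u _ => hSn u, Nat.card_Icc, Nat.add_sub_cancel] at hmain
  -- the difference
  have hdiff : ∀ d ∈ Icc 1 x, |cor (dg z) X d - S d| ≤ 3 * (Y * L ^ 4) := by
    intro d hd
    have hdx : (d : ℝ) ≤ x := by exact_mod_cast (mem_Icc.1 hd).2
    have hdX : d ≤ X := (mem_Icc.1 hd).2.trans hxX'
    have hterm : ∀ m ∈ Icc 1 X, |dg z m * dg z (m + d) - w m * ff z (m + d)| ≤
        (if m < m0 then L ^ 4 else 0) + L ^ 4 / L ^ (B + 20) := by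
      intro m hm
      have hmX := (mem_Icc.1 hm).2
      have hnn : 0 ≤ L ^ 4 / L ^ (B + 20) := (div_pos (hLp _) (hLp _)).le
      by_cases h : m < m0
      · rw [if_pos h, hw]
        dsimp only
        rw [if_pos h, zero_mul, sub_zero, abs_mul]
        have h1 : |dg z m| * |dg z (m + d)| ≤ L ^ 2 * L ^ 2 :=
          mul_le_mul (hdg m) (hdg (m + d)) (abs_nonneg _) (hLp 2).le
        have h2 : L ^ 2 * L ^ 2 = L ^ 4 := by ring
        linarith
      · rw [if_neg h, hw]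
        dsimp only
        rw [if_neg h, zero_add]
        have hmY : Y ≤ m := hm0l.trans (by exact_mod_cast (not_lt.1 h))
        have hm3 : 3 ≤ m := by
          have : (3 : ℝ) ≤ m := hY3.trans hmY
          exact_mod_cast this
        have h1 : dg z m * dg z (m + d) - ff z m * (1 / Real.log (m : ℝ)) ^ 2 * ff z (m + d) =
            dg z m * (ff z (m + d) * (1 / Real.log ((m + d : ℕ) : ℝ) - 1 / Real.log (m : ℝ))) := by
          rw [dg_eq z (m + d), dg_eq z m]
          ring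
        rw [h1, abs_mul, abs_mul]
        have h2 := inv_log_sub (d := d) hm3
        have h3 : (d : ℝ) / m ≤ 1 / L ^ (B + 20) := by
          have hm0' : (0 : ℝ) < m := lt_of_lt_of_le hY0 hmY
          rw [div_le_div_iff₀ hm0' (hLp _), one_mul]
          have h4 : (d : ℝ) ≤ Y / L ^ (B + 20) := by
            refine (hdx.trans hx).trans (le_of_eq ?_)
            rw [hY, div_div, ← pow_add]
            congr 2
            ring
          calc (d : ℝ) * L ^ (B + 20) ≤ Y / L ^ (B + 20) * L ^ (B + 20) :=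
                mul_le_mul_of_nonneg_right h4 (hLp _).le
            _ = Y := div_mul_cancel₀ _ (hLp _).ne'
            _ ≤ m := hmY
        have h5 : |ff z (m + d)| * |1 / Real.log ((m + d : ℕ) : ℝ) - 1 / Real.log (m : ℝ)| ≤
            L ^ 2 * (1 / L ^ (B + 20)) :=
          mul_le_mul (hff (m + d) (by omega)) (h2.trans h3) (abs_nonneg _) (hLp 2).le
        calc |dg z m| * (|ff z (m + d)| *
              |1 / Real.log ((m + d : ℕ) : ℝ) - 1 / Real.log (m : ℝ)|) ≤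
              L ^ 2 * (L ^ 2 * (1 / L ^ (B + 20))) :=
                mul_le_mul (hdg m) h5 (mul_nonneg (abs_nonneg _) (abs_nonneg _)) (hLp 2).le
          _ = L ^ 4 / L ^ (B + 20) := by ring
    have hsub : cor (dg z) X d - S d =
        ∑ m ∈ Icc 1 X, (dg z m * dg z (m + d) - w m * ff z (m + d)) := by
      rw [Finset.sum_sub_distrib]
      rfl
    rw [hsub]
    refine (Finset.abs_sum_le_sum_abs _ _).trans ((Finset.sum_le_sum hterm).trans ?_)
    rw [Finset.sum_add_distrib, Finset.sum_const, Nat.card_Icc, Nat.add_sub_cancel,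
      nsmul_eq_mul, ← Finset.sum_filter, Finset.sum_const, nsmul_eq_mul]
    have hcard : (((Icc 1 X).filter (fun m => m < m0)).card : ℝ) ≤ m0 := by
      have h1 : (Icc 1 X).filter (fun m => m < m0) ⊆ range m0 := by
        intro m hm
        rw [Finset.mem_range]
        exact (Finset.mem_filter.1 hm).2
      have h2 := Finset.card_le_card h1
      rw [Finset.card_range] at h2
      exact_mod_cast h2
    have h1 : (((Icc 1 X).filter (fun m => m < m0)).card : ℝ) * L ^ 4 ≤ 2 * Y * L ^ 4 :=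
      mul_le_mul_of_nonneg_right (hcard.trans hm0u) (hLp 4).le
    have h2 : (X : ℝ) * (L ^ 4 / L ^ (B + 20)) = Y * L ^ 4 := by
      rw [hY]
      ring
    rw [h2]
    linarith
  -- the square of the difference
  have hsq : (3 * (Y * L ^ 4)) ^ 2 ≤ (X : ℝ) ^ 2 / L ^ (B + 4) := by
    rw [le_div_iff₀ (hLp _), hY]
    have h1 : (3 * ((X : ℝ) / L ^ (B + 20) * L ^ 4)) ^ 2 * L ^ (B + 4) =
        (X : ℝ) ^ 2 * (9 * L ^ (B + 12) / L ^ (2 * B + 40)) := by
      have e1 : L ^ (2 * B + 40) = L ^ (B + 20) * L ^ (B + 20) := by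
        rw [← pow_add]
        congr 1
        ring
      have e2 : L ^ (B + 12) = L ^ 4 * L ^ 4 * L ^ (B + 4) := by
        rw [← pow_add, ← pow_add]
        congr 1
        ring
      rw [e1, e2]
      field_simp
      ring
    rw [h1]
    have h2 : 9 * L ^ (B + 12) / L ^ (2 * B + 40) ≤ 1 := by
      rw [div_le_one (hLp _)]
      calc 9 * L ^ (B + 12) ≤ L * L ^ (B + 12) :=
            mul_le_mul_of_nonneg_right (by linarith) (hLp _).le
        _ = L ^ (B + 13) := by rw [← pow_succ']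
        _ ≤ L ^ (2 * B + 40) := pow_le_pow_right₀ hL1 (by omega)
    calc (X : ℝ) ^ 2 * (9 * L ^ (B + 12) / L ^ (2 * B + 40)) ≤ (X : ℝ) ^ 2 * 1 :=
          mul_le_mul_of_nonneg_left h2 (by positivity)
      _ = (X : ℝ) ^ 2 := mul_one _
  have hcor : ∀ d ∈ Icc 1 x, cor (dg z) X d ^ 2 ≤
      2 * S d ^ 2 + 2 * ((X : ℝ) ^ 2 / L ^ (B + 4)) := by
    intro d hd
    have h1 := hdiff d hd
    have h2 : (cor (dg z) X d - S d) ^ 2 ≤ (3 * (Y * L ^ 4)) ^ 2 := by
      rw [← sq_abs (cor (dg z) X d - S d)]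
      exact pow_le_pow_left₀ (abs_nonneg _) h1 2
    nlinarith [sq_nonneg (cor (dg z) X d - 2 * S d)]
  unfold CorS
  refine (Finset.sum_le_sum hcor).trans ?_
  rw [Finset.sum_add_distrib, ← Finset.mul_sum, Finset.sum_const, Nat.card_Icc,
    Nat.add_sub_cancel, nsmul_eq_mul]
  have hfin : (4 : ℝ) * ((x : ℝ) * ((X : ℝ) ^ 2 / L ^ (B + 4))) ≤ (x : ℝ) * X ^ 2 / L ^ B := by
    have e1 : (4 : ℝ) * ((x : ℝ) * ((X : ℝ) ^ 2 / L ^ (B + 4))) =
        ((x : ℝ) * X ^ 2 / L ^ B) * (4 / L ^ 4) := by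
      rw [pow_add]
      field_simp
    rw [e1]
    have h1 : 4 / L ^ 4 ≤ 1 := by
      rw [div_le_one (hLp 4)]
      have h2 : L ^ 1 ≤ L ^ 4 := pow_le_pow_right₀ hL1 (by norm_num)
      rw [pow_one] at h2
      linarith
    exact mul_le_of_le_one_right (by positivity) h1
  linarith

end Pool.Agent.SHT
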