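import Pool.Agent.Lib.VN.Every

/-!
# Prime tuples with independent shifts from `[1, X]` in short ranges `n ≤ x`, `x` between `X^(1/6+ε)` and `X`: definitions

`dg z n = G0 n - G1 z n`: indicator of the primes minus its sieve model. `CorS A B X x`: the correlations of `dg (zA A X)` on
`[1, X]` with the shifts `d ≤ x` are small in mean square.
-/

set_option autoImplicit false

open Finset Filter

namespace Pool.Agent.SHT

open Pool.Agent.HLB Pool.Agent.HL Pool.Agent.HLT Pool.Agent.HLU Pool.Agent.VN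

/-- Indicator of the primes minus its model. -/
noncomputable def dg (z n : ℕ) : ℝ := G0 n - G1 z n

/-- The correlation with shift `d`. -/
noncomputable def cor (g : ℕ → ℝ) (X d : ℕ) : ℝ := ∑ m ∈ Icc 1 X, g m * g (m + d)

/-- Small correlations with the shifts `d ≤ x`. -/
def CorS (A B X x : ℕ) : Prop :=
  ∑ d ∈ Icc 1 x, cor (dg (zA A X)) X d ^ 2 ≤ (x : ℝ) * X ^ 2 / Real.log X ^ B

lemma dg_eq (z n : ℕ) : dg z n = ff z n * (1 / Real.log (n : ℝ)) := by
  unfold dg G0 G1 ff HLT.lp
  rw [sub_mul]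
  congr 1
  split_ifs with h
  · have h1 : Real.log (n : ℝ) ≠ 0 := by
      have h2 : (1 : ℝ) < n := by exact_mod_cast h.one_lt
      exact (Real.log_pos h2).ne'
    rw [mul_one_div, div_self h1]
  · rw [zero_mul]

lemma abs_dg_le {X z : ℕ} (hL : 2 ≤ Real.log X) (hD : (DZ z)⁻¹ ≤ Real.log X) (n : ℕ) :
    |dg z n| ≤ Real.log X ^ 2 := by
  have h1 := G1_le hL hD n
  have h2 := G1_nonneg z n
  have h3 := G0_nonneg n
  have h4 := G0_le n
  unfold dg
  rw [abs_le]
  constructor
  · linarith
  · nlinarith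

end Pool.Agent.SHT
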