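import Pool.Agent.Lib.SHT.Defs

/-!
# Module Second: second moment over independent shifts

`L = log X`, `g = dg (zA A X) = G k`. Open the square and exchange the sums (`Finset.prod_univ_sum` for the product over `i` of the sums over `a i`):
`∑_a ‖∑_{n ≤ x} w n ∏_i G i (n + a i)‖^2 = ∑_{n, n' ≤ x} w n conj (w n') ∏_i (∑_{u ∈ Icc 1 X} G i (n + u) G i (n' + u))`.
The factors `i ≠ k` are at most `X L^(2K)` in absolute value (`n + u ≤ 2 X` as `x ≤ X`). For the factor `k` and `n' = n + d`, `1 ≤ d < x` (the case `n' < n` is symmetric):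
`∑_{u=1}^X g (n + u) g (n + u + d) = ∑_{m=n+1}^{n+X} g m g (m + d)` differs from `cor g X d` by at most `2 n L^(2K) ≤ 2 x L^(2K)` (all arguments are `≤ 2 X`:
`n + X + d ≤ X + x ≤ 2 X`, because `n + d = n' ≤ x`). For `n = n'` the factor is at most `X L^(2K)`. Hence the sum is at most
`L^(2K) (X L^(2K))^(r-1) [x X L^(2K) + 2 x ∑_{d ∈ Icc 1 x} |cor g X d| + 4 x^3 L^(2K)]`, and by Cauchy and `CorS`, `∑_d |cor g X d| ≤ (x ∑_d cor^2)^(1/2) ≤ x X / L^(B'/2)`.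
With `B' = 2 (B + 2 K (r + 1) + 10)`, `C = B + 2 K (r + 1) + 10`, `L^C ≤ x ≤ X / L^C` and `L ≥ 10` every term is at most `X^r x^2 / (3 L^B)`.
-/

set_option autoImplicit false

open Finset Filter

namespace Pool.Agent.SHT

open Pool.Agent.HLB Pool.Agent.HL Pool.Agent.HLT Pool.Agent.HLU Pool.Agent.VN

namespace SecondAux

open ComplexConjugate

lemma expand {r : ℕ} (X x : ℕ) (w : ℕ → ℂ) (G : Fin r → ℕ → ℝ) :
    ∑ a ∈ Fintype.piFinset (fun _ : Fin r => Icc 1 X), ‖∑ n ∈ Icc 1 x, w n * ∏ i, (G i (n + a i) : ℂ)‖ ^ 2 ≤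
      ∑ n ∈ Icc 1 x, ∑ n' ∈ Icc 1 x, ‖w n‖ * ‖w n'‖ * ∏ i, |∑ u ∈ Icc 1 X, G i (n + u) * G i (n' + u)| := by
  have key : ((∑ a ∈ Fintype.piFinset (fun _ : Fin r => Icc 1 X), ‖∑ n ∈ Icc 1 x, w n * ∏ i, (G i (n + a i) : ℂ)‖ ^ 2 : ℝ) : ℂ) =
      ∑ n ∈ Icc 1 x, ∑ n' ∈ Icc 1 x, (w n * conj (w n')) * ((∏ i, ∑ u ∈ Icc 1 X, G i (n + u) * G i (n' + u) : ℝ) : ℂ) := by
    push_cast
    have h1 : ∀ a ∈ Fintype.piFinset (fun _ : Fin r => Icc 1 X),
        ((‖∑ n ∈ Icc 1 x, w n * ∏ i, (G i (n + a i) : ℂ)‖ : ℂ)) ^ 2 =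
        ∑ n ∈ Icc 1 x, ∑ n' ∈ Icc 1 x, (w n * conj (w n')) * ∏ i, ((G i (n + a i) : ℂ) * (G i (n' + a i) : ℂ)) := by
      intro a _
      rw [← Complex.mul_conj', map_sum, sum_mul_sum]
      refine sum_congr rfl fun n _ => sum_congr rfl fun n' _ => ?_
      rw [map_mul, map_prod, prod_mul_distrib]
      simp only [Complex.conj_ofReal]
      ring
    rw [sum_congr rfl h1, sum_comm]
    refine sum_congr rfl fun n _ => ?_
    rw [sum_comm]
    refine sum_congr rfl fun n' _ => ?_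
    rw [← mul_sum, Finset.prod_univ_sum]
  have h0 : 0 ≤ ∑ a ∈ Fintype.piFinset (fun _ : Fin r => Icc 1 X), ‖∑ n ∈ Icc 1 x, w n * ∏ i, (G i (n + a i) : ℂ)‖ ^ 2 :=
    sum_nonneg fun _ _ => sq_nonneg _
  calc ∑ a ∈ Fintype.piFinset (fun _ : Fin r => Icc 1 X), ‖∑ n ∈ Icc 1 x, w n * ∏ i, (G i (n + a i) : ℂ)‖ ^ 2
      = ‖((∑ a ∈ Fintype.piFinset (fun _ : Fin r => Icc 1 X), ‖∑ n ∈ Icc 1 x, w n * ∏ i, (G i (n + a i) : ℂ)‖ ^ 2 : ℝ) : ℂ)‖ := by
        rw [Complex.norm_real, Real.norm_of_nonneg h0]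
    _ = ‖∑ n ∈ Icc 1 x, ∑ n' ∈ Icc 1 x, (w n * conj (w n')) * ((∏ i, ∑ u ∈ Icc 1 X, G i (n + u) * G i (n' + u) : ℝ) : ℂ)‖ := by
        rw [key]
    _ ≤ _ := by
        refine (norm_sum_le _ _).trans (sum_le_sum fun n _ => (norm_sum_le _ _).trans (sum_le_sum fun n' _ => ?_))
        rw [norm_mul, norm_mul, Complex.norm_real, Complex.norm_conj, Real.norm_eq_abs, abs_prod]

lemma sum_split (f : ℕ → ℝ) (p q : ℕ) :
    ∑ v ∈ Icc 1 (p + q), f v = ∑ v ∈ Icc 1 p, f v + ∑ u ∈ Icc 1 q, f (p + u) := by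
  induction q with
  | zero => simp
  | succ q ih =>
    rw [← add_assoc, sum_Icc_succ_top (by omega), ih, sum_Icc_succ_top (by omega), add_assoc]
    rfl

lemma shift_le (g : ℕ → ℝ) (X m d : ℕ) (P : ℝ) (hP : ∀ v ∈ Icc 1 (2 * X), |g v| ≤ P) (h0 : 0 ≤ P)
    (hm : m + d + X ≤ 2 * X) :
    |∑ u ∈ Icc 1 X, g (m + u) * g (m + d + u)| ≤ |cor g X d| + 2 * m * P ^ 2 := by
  have h1 := sum_split (fun v => g v * g (v + d)) m X
  have h2 := sum_split (fun v => g v * g (v + d)) X m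
  rw [add_comm X m, h1] at h2
  have hb : ∀ v : ℕ, 1 ≤ v → v + d ≤ 2 * X → |g v * g (v + d)| ≤ P ^ 2 := by
    intro v hv1 hv2
    rw [abs_mul, sq]
    exact mul_le_mul (hP v (mem_Icc.mpr ⟨hv1, by omega⟩)) (hP (v + d) (mem_Icc.mpr ⟨by omega, hv2⟩)) (abs_nonneg _) h0
  have h3 : |∑ v ∈ Icc 1 m, g v * g (v + d)| ≤ m * P ^ 2 := by
    refine (abs_sum_le_sum_abs _ _).trans ?_
    refine (sum_le_sum (g := fun _ => P ^ 2) fun v hv => ?_).trans ?_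
    · rw [mem_Icc] at hv
      exact hb v hv.1 (by omega)
    · rw [sum_const, Nat.card_Icc, nsmul_eq_mul]
      simp
  have h4 : |∑ u ∈ Icc 1 m, g (X + u) * g (X + u + d)| ≤ m * P ^ 2 := by
    refine (abs_sum_le_sum_abs _ _).trans ?_
    refine (sum_le_sum (g := fun _ => P ^ 2) fun v hv => ?_).trans ?_
    · rw [mem_Icc] at hv
      exact hb (X + v) (by omega) (by omega)
    · rw [sum_const, Nat.card_Icc, nsmul_eq_mul]
      simp
  have h5 : ∑ u ∈ Icc 1 X, g (m + u) * g (m + d + u) = ∑ u ∈ Icc 1 X, g (m + u) * g (m + u + d) :=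
    sum_congr rfl fun u _ => by rw [show m + d + u = m + u + d by omega]
  have h6 : ∑ u ∈ Icc 1 X, g (m + u) * g (m + u + d) =
      cor g X d + ∑ u ∈ Icc 1 m, g (X + u) * g (X + u + d) - ∑ v ∈ Icc 1 m, g v * g (v + d) := by
    unfold cor
    linarith
  rw [h5, h6]
  have h7 := abs_le.mp h3
  have h8 := abs_le.mp h4
  have h9 := abs_le.mp (le_refl |cor g X d|)
  rw [abs_le]
  constructor <;> linarith

lemma inj_lt (F : ℕ → ℝ) (hF : ∀ d, 0 ≤ F d) (n x : ℕ) :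
    ∑ n' ∈ Icc 1 x, (if n < n' then F (n' - n) else 0) ≤ ∑ d ∈ Icc 1 x, F d := by
  rw [← sum_filter]
  have h : ∑ n' ∈ (Icc 1 x).filter (fun n' => n < n'), F (n' - n) =
      ∑ d ∈ ((Icc 1 x).filter (fun n' => n < n')).image (fun n' => n' - n), F d := by
    rw [sum_image]
    intro a ha b hb hab
    have ha' := (mem_filter.mp (mem_coe.mp ha)).2
    have hb' := (mem_filter.mp (mem_coe.mp hb)).2
    simp only at hab
    omega
  rw [h]
  refine sum_le_sum_of_subset_of_nonneg (fun d hd => ?_) fun d _ _ => hF d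
  obtain ⟨n', h1, h2⟩ := mem_image.mp hd
  rw [mem_filter, mem_Icc] at h1
  rw [mem_Icc]
  omega

lemma inj_gt (F : ℕ → ℝ) (hF : ∀ d, 0 ≤ F d) (n x : ℕ) (hn : n ≤ x) :
    ∑ n' ∈ Icc 1 x, (if n' < n then F (n - n') else 0) ≤ ∑ d ∈ Icc 1 x, F d := by
  rw [← sum_filter]
  have h : ∑ n' ∈ (Icc 1 x).filter (fun n' => n' < n), F (n - n') =
      ∑ d ∈ ((Icc 1 x).filter (fun n' => n' < n)).image (fun n' => n - n'), F d := by
    rw [sum_image]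
    intro a ha b hb hab
    have ha' := (mem_filter.mp (mem_coe.mp ha)).2
    have hb' := (mem_filter.mp (mem_coe.mp hb)).2
    simp only at hab
    omega
  rw [h]
  refine sum_le_sum_of_subset_of_nonneg (fun d hd => ?_) fun d _ _ => hF d
  obtain ⟨n', h1, h2⟩ := mem_image.mp hd
  rw [mem_filter, mem_Icc] at h1
  rw [mem_Icc]
  omega

lemma double_le (g : ℕ → ℝ) (X x : ℕ) (P : ℝ) (hP : ∀ v ∈ Icc 1 (2 * X), |g v| ≤ P) (h0 : 0 ≤ P)
    (hx : x ≤ X) :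
    ∑ n ∈ Icc 1 x, ∑ n' ∈ Icc 1 x, |∑ u ∈ Icc 1 X, g (n + u) * g (n' + u)| ≤
      x * (X * P ^ 2 + 2 * (∑ d ∈ Icc 1 x, |cor g X d|) + 2 * x ^ 2 * P ^ 2) := by
  have hrow : ∀ n ∈ Icc 1 x, ∑ n' ∈ Icc 1 x, |∑ u ∈ Icc 1 X, g (n + u) * g (n' + u)| ≤
      X * P ^ 2 + 2 * (∑ d ∈ Icc 1 x, |cor g X d|) + 2 * x ^ 2 * P ^ 2 := by
    intro n hn
    have hn' := mem_Icc.mp hn
    have hpt : ∀ n' ∈ Icc 1 x, |∑ u ∈ Icc 1 X, g (n + u) * g (n' + u)| ≤
        (if n' = n then (X : ℝ) * P ^ 2 else 0) + (if n < n' then |cor g X (n' - n)| else 0) +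
        (if n' < n then |cor g X (n - n')| else 0) + 2 * x * P ^ 2 := by
      intro n' hn1
      have hn1' := mem_Icc.mp hn1
      have hxP : 0 ≤ 2 * (x : ℝ) * P ^ 2 := by positivity
      rcases lt_trichotomy n n' with h | h | h
      · obtain ⟨d, rfl⟩ := Nat.exists_eq_add_of_lt h
        have h1 := shift_le g X n (d + 1) P hP h0 (by omega)
        have h2 : (n : ℝ) ≤ x := by exact_mod_cast hn'.2
        have h3 : 2 * (n : ℝ) * P ^ 2 ≤ 2 * x * P ^ 2 := by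
          have : 0 ≤ P ^ 2 := sq_nonneg _
          nlinarith
        rw [if_neg (by omega), if_pos (by omega), if_neg (by omega)]
        have h4 : n + d + 1 - n = d + 1 := by omega
        rw [h4]
        have h5 : ∀ u, n + (d + 1) + u = n + d + 1 + u := fun u => by omega
        simp only [h5] at h1
        linarith
      · subst h
        rw [if_pos rfl, if_neg (lt_irrefl n)]
        have h1 : |∑ u ∈ Icc 1 X, g (n + u) * g (n + u)| ≤ X * P ^ 2 := by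
          refine (abs_sum_le_sum_abs _ _).trans ?_
          refine (sum_le_sum (g := fun _ => P ^ 2) fun v hv => ?_).trans ?_
          · rw [mem_Icc] at hv
            rw [abs_mul, sq]
            have h2 := hP (n + v) (mem_Icc.mpr ⟨by omega, by omega⟩)
            exact mul_le_mul h2 h2 (abs_nonneg _) h0
          · rw [sum_const, Nat.card_Icc, nsmul_eq_mul]
            simp
        linarith
      · obtain ⟨d, rfl⟩ := Nat.exists_eq_add_of_lt h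
        have h1 := shift_le g X n' (d + 1) P hP h0 (by omega)
        have h2 : (n' : ℝ) ≤ x := by exact_mod_cast hn1'.2
        have h3 : 2 * (n' : ℝ) * P ^ 2 ≤ 2 * x * P ^ 2 := by
          have : 0 ≤ P ^ 2 := sq_nonneg _
          nlinarith
        rw [if_neg (by omega), if_neg (by omega), if_pos (by omega)]
        have h4 : n' + d + 1 - n' = d + 1 := by omega
        rw [h4]
        have h5 : ∑ u ∈ Icc 1 X, g (n' + d + 1 + u) * g (n' + u) = ∑ u ∈ Icc 1 X, g (n' + u) * g (n' + (d + 1) + u) :=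
          sum_congr rfl fun u _ => by rw [mul_comm, show n' + d + 1 + u = n' + (d + 1) + u by omega]
        rw [h5]
        linarith
    refine (sum_le_sum hpt).trans ?_
    rw [sum_add_distrib, sum_add_distrib, sum_add_distrib, sum_ite_eq' (Icc 1 x) n, if_pos hn, sum_const, Nat.card_Icc,
      nsmul_eq_mul]
    have h1 := inj_lt (fun d => |cor g X d|) (fun _ => abs_nonneg _) n x
    have h2 := inj_gt (fun d => |cor g X d|) (fun _ => abs_nonneg _) n x hn'.2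
    have h3 : ((x + 1 - 1 : ℕ) : ℝ) = x := by simp
    rw [h3]
    nlinarith
  refine (sum_le_sum hrow).trans ?_
  rw [sum_const, Nat.card_Icc, nsmul_eq_mul]
  simp

lemma cauchy_le (g : ℕ → ℝ) (X x : ℕ) (L : ℝ) (E : ℕ) (hL : 0 < L)
    (h : ∑ d ∈ Icc 1 x, cor g X d ^ 2 ≤ (x : ℝ) * X ^ 2 / L ^ (2 * E)) :
    ∑ d ∈ Icc 1 x, |cor g X d| ≤ x * X / L ^ E := by
  have h1 : (∑ d ∈ Icc 1 x, |cor g X d|) ^ 2 ≤ (x * X / L ^ E) ^ 2 := by
    have h2 := sq_sum_le_card_mul_sum_sq (s := Icc 1 x) (f := fun d => |cor g X d|)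
    simp only [sq_abs, Nat.card_Icc, Nat.add_sub_cancel] at h2
    refine h2.trans ?_
    have h3 : (x : ℝ) * ∑ d ∈ Icc 1 x, cor g X d ^ 2 ≤ x * ((x : ℝ) * X ^ 2 / L ^ (2 * E)) :=
      mul_le_mul_of_nonneg_left h (Nat.cast_nonneg _)
    refine h3.trans (le_of_eq ?_)
    rw [div_pow, ← pow_mul, mul_comm E 2]
    ring
  exact abs_le_of_sq_le_sq' h1 (by positivity) |>.2

lemma core (r K B : ℕ) (X x : ℕ) (L P : ℝ) (hL : 10 ≤ L) (hPdef : P = L ^ K) (E : ℕ)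
    (hE : E = B + 2 * K * (r + 1) + 10) (hx1 : L ^ E ≤ x) (hx2 : (x : ℝ) ≤ X / L ^ E)
    (w : ℕ → ℂ) (G : Fin r → ℕ → ℝ) (k : Fin r) (hw : ∀ n ∈ Icc 1 x, ‖w n‖ ≤ P)
    (hG : ∀ i, ∀ n ∈ Icc 1 (2 * X), |G i n| ≤ P)
    (hcor : ∑ d ∈ Icc 1 x, cor (G k) X d ^ 2 ≤ (x : ℝ) * X ^ 2 / L ^ (2 * E)) :
    ∑ a ∈ Fintype.piFinset (fun _ : Fin r => Icc 1 X), ‖∑ n ∈ Icc 1 x, w n * ∏ i, (G i (n + a i) : ℂ)‖ ^ 2 ≤
      (X : ℝ) ^ r * ((x : ℝ) ^ 2 / L ^ B) := by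
  have hL1 : 1 ≤ L := by linarith
  have hLpos : 0 < L := by linarith
  have hP1 : 1 ≤ P := by rw [hPdef]; exact one_le_pow₀ hL1
  have hP0 : 0 ≤ P := by linarith
  have hLE : 1 ≤ L ^ E := one_le_pow₀ hL1
  have hLE0 : 0 < L ^ E := by linarith
  have hxX : x ≤ X := by
    have h1 : (x : ℝ) ≤ X := hx2.trans (div_le_self (Nat.cast_nonneg _) hLE)
    exact_mod_cast h1
  have hx0 : (0 : ℝ) < x := lt_of_lt_of_le hLE0 hx1
  have hX0 : (0 : ℝ) < X := lt_of_lt_of_le hx0 (by exact_mod_cast hxX)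
  -- step 1
  refine (expand X x w G).trans ?_
  have hD : ∑ d ∈ Icc 1 x, |cor (G k) X d| ≤ x * X / L ^ E := cauchy_le _ X x L E hLpos hcor
  have hfac : ∀ i, ∀ n ∈ Icc 1 x, ∀ n' ∈ Icc 1 x, |∑ u ∈ Icc 1 X, G i (n + u) * G i (n' + u)| ≤ X * P ^ 2 := by
    intro i n hn n' hn'
    rw [mem_Icc] at hn hn'
    refine (abs_sum_le_sum_abs _ _).trans ?_
    refine (sum_le_sum (g := fun _ => P ^ 2) fun v hv => ?_).trans ?_
    · rw [mem_Icc] at hv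
      rw [abs_mul, sq]
      exact mul_le_mul (hG i (n + v) (mem_Icc.mpr ⟨by omega, by omega⟩)) (hG i (n' + v) (mem_Icc.mpr ⟨by omega, by omega⟩))
        (abs_nonneg _) hP0
    · rw [sum_const, Nat.card_Icc, nsmul_eq_mul]
      simp
  have hr : 1 ≤ r := by
    rcases r with _ | r
    · exact k.elim0
    · omega
  have hstep : ∑ n ∈ Icc 1 x, ∑ n' ∈ Icc 1 x, ‖w n‖ * ‖w n'‖ * ∏ i, |∑ u ∈ Icc 1 X, G i (n + u) * G i (n' + u)| ≤
      P ^ 2 * (X * P ^ 2) ^ (r - 1) * ∑ n ∈ Icc 1 x, ∑ n' ∈ Icc 1 x, |∑ u ∈ Icc 1 X, G k (n + u) * G k (n' + u)| := by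
    rw [mul_sum]
    refine sum_le_sum fun n hn => ?_
    rw [mul_sum]
    refine sum_le_sum fun n' hn' => ?_
    have h1 : ∏ i, |∑ u ∈ Icc 1 X, G i (n + u) * G i (n' + u)| ≤
        (X * P ^ 2) ^ (r - 1) * |∑ u ∈ Icc 1 X, G k (n + u) * G k (n' + u)| := by
      rw [← mul_prod_erase univ _ (mem_univ k), mul_comm]
      refine mul_le_mul_of_nonneg_right ?_ (abs_nonneg _)
      have h2 : ∏ i ∈ univ.erase k, |∑ u ∈ Icc 1 X, G i (n + u) * G i (n' + u)| ≤ ∏ _i ∈ univ.erase k, ((X : ℝ) * P ^ 2) :=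
        prod_le_prod (fun _ _ => abs_nonneg _) fun i _ => hfac i n hn n' hn'
      refine h2.trans (le_of_eq ?_)
      rw [prod_const, card_erase_of_mem (mem_univ k), card_univ, Fintype.card_fin]
    have h3 : ‖w n‖ * ‖w n'‖ ≤ P ^ 2 := by
      rw [sq]
      exact mul_le_mul (hw n hn) (hw n' hn') (norm_nonneg _) hP0
    calc ‖w n‖ * ‖w n'‖ * ∏ i, |∑ u ∈ Icc 1 X, G i (n + u) * G i (n' + u)|
        ≤ P ^ 2 * ((X * P ^ 2) ^ (r - 1) * |∑ u ∈ Icc 1 X, G k (n + u) * G k (n' + u)|) :=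
          mul_le_mul h3 h1 (prod_nonneg fun _ _ => abs_nonneg _) (sq_nonneg _)
      _ = _ := by ring
  refine hstep.trans ?_
  have hdb := double_le (G k) X x P (fun v hv => hG k v hv) hP0 hxX
  have hcoef : 0 ≤ P ^ 2 * ((X : ℝ) * P ^ 2) ^ (r - 1) := by positivity
  have hB1 : ((X : ℝ) * P ^ 2 + 2 * (∑ d ∈ Icc 1 x, |cor (G k) X d|) + 2 * x ^ 2 * P ^ 2) ≤
      X * P ^ 2 + 2 * (x * X / L ^ E) + 2 * x ^ 2 * P ^ 2 := by linarith
  refine (mul_le_mul_of_nonneg_left (hdb.trans (mul_le_mul_of_nonneg_left hB1 hx0.le)) hcoef).trans ?_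
  -- numeric part
  obtain ⟨q, rfl⟩ : ∃ q, r = q + 1 := ⟨r - 1, by omega⟩
  simp only [Nat.add_sub_cancel]
  obtain ⟨R, hR⟩ : ∃ R : ℝ, R = P ^ (2 * q + 4) := ⟨_, rfl⟩
  have hRL : R = L ^ (2 * K * (q + 1 + 1)) := by
    rw [hR, hPdef, ← pow_mul]
    congr 1
    ring
  have hR1 : 1 ≤ R := by rw [hR]; exact one_le_pow₀ hP1
  have h10 : (6 : ℝ) ≤ L ^ 10 := by
    calc (6 : ℝ) ≤ L := by linarith
      _ = L ^ 1 := (pow_one L).symm
      _ ≤ L ^ 10 := pow_le_pow_right₀ hL1 (by norm_num)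
  have hLB : 0 < L ^ B := by positivity
  have hmain : 6 * R * L ^ B ≤ L ^ E := by
    rw [hE, pow_add, pow_add, ← hRL]
    have : 0 ≤ L ^ B * R := by positivity
    nlinarith
  have e1 : P ^ 2 * ((X : ℝ) * P ^ 2) ^ q * ((x : ℝ) * (X * P ^ 2 + 2 * (x * X / L ^ E) + 2 * x ^ 2 * P ^ 2)) =
      X ^ q * (X * x * P ^ (2 * q + 4) + 2 * (x ^ 2 * X / L ^ E) * P ^ (2 * q + 2) + 2 * x ^ 3 * P ^ (2 * q + 4)) := by
    rw [mul_pow, ← pow_mul]
    ring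
  have e2 : (X : ℝ) ^ (q + 1) * ((x : ℝ) ^ 2 / L ^ B) = (X : ℝ) ^ q * (X * ((x : ℝ) ^ 2 / L ^ B)) := by ring
  have hXq : (0 : ℝ) ≤ (X : ℝ) ^ q := by positivity
  rw [e1, ← hR, e2]
  refine mul_le_mul_of_nonneg_left ?_ hXq
  have hR2 : P ^ (2 * q + 2) ≤ R := by rw [hR]; exact pow_le_pow_right₀ hP1 (by omega)
  -- bounds in units of x^2 X / L^B
  have t1 : (X : ℝ) * x * R ≤ X * (x ^ 2 / L ^ B) / 3 := by
    have h1 : R * L ^ B * 3 ≤ x := by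
      have h3 : 0 ≤ R * L ^ B := mul_nonneg (by linarith) hLB.le
      have : R * L ^ B * 3 ≤ 6 * R * L ^ B := by nlinarith
      linarith
    have h2 : R ≤ x / L ^ B / 3 := by
      rw [le_div_iff₀ (by norm_num), le_div_iff₀ hLB]
      linarith
    calc (X : ℝ) * x * R ≤ X * x * (x / L ^ B / 3) := mul_le_mul_of_nonneg_left h2 (by positivity)
      _ = _ := by ring
  have t2 : 2 * ((x : ℝ) ^ 2 * X / L ^ E) * P ^ (2 * q + 2) ≤ X * (x ^ 2 / L ^ B) / 3 := by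
    have h1 : 2 * P ^ (2 * q + 2) / L ^ E ≤ 1 / L ^ B / 3 := by
      rw [div_le_iff₀ hLE0, div_div, div_mul_eq_mul_div, one_mul, le_div_iff₀ (by positivity)]
      nlinarith [mul_le_mul_of_nonneg_right hR2 hLB.le]
    calc 2 * ((x : ℝ) ^ 2 * X / L ^ E) * P ^ (2 * q + 2) = x ^ 2 * X * (2 * P ^ (2 * q + 2) / L ^ E) := by ring
      _ ≤ x ^ 2 * X * (1 / L ^ B / 3) := mul_le_mul_of_nonneg_left h1 (by positivity)
      _ = _ := by ring
  have t3 : 2 * (x : ℝ) ^ 3 * R ≤ X * (x ^ 2 / L ^ B) / 3 := by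
    have h0 : (x : ℝ) * L ^ E ≤ X := by rwa [le_div_iff₀ hLE0] at hx2
    have h1 : 6 * x * R * L ^ B ≤ X := by
      calc 6 * x * R * L ^ B = x * (6 * R * L ^ B) := by ring
        _ ≤ x * L ^ E := mul_le_mul_of_nonneg_left hmain hx0.le
        _ ≤ X := h0
    have h2 : 2 * x * R ≤ X / L ^ B / 3 := by
      rw [le_div_iff₀ (by norm_num), le_div_iff₀ hLB]
      linarith
    calc 2 * (x : ℝ) ^ 3 * R = x ^ 2 * (2 * x * R) := by ring
      _ ≤ x ^ 2 * (X / L ^ B / 3) := mul_le_mul_of_nonneg_left h2 (by positivity)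
      _ = _ := by ring
  linarith

end SecondAux

theorem second (r K B : ℕ) : ∃ B' C : ℕ, ∀ A : ℕ, ∀ᶠ X : ℕ in atTop, ∀ x : ℕ, Real.log X ^ C ≤ x →
    (x : ℝ) ≤ X / Real.log X ^ C → CorS A B' X x →
    ∀ (w : ℕ → ℂ) (G : Fin r → ℕ → ℝ) (k : Fin r), (∀ n ∈ Icc 1 x, ‖w n‖ ≤ Real.log X ^ K) →
    (∀ i, ∀ n ∈ Icc 1 (2 * X), |G i n| ≤ Real.log X ^ K) → (∀ n, G k n = dg (zA A X) n) →
    ∑ a ∈ Fintype.piFinset (fun _ : Fin r => Icc 1 X), ‖∑ n ∈ Icc 1 x, w n * ∏ i, (G i (n + a i) : ℂ)‖ ^ 2 ≤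
      (X : ℝ) ^ r * ((x : ℝ) ^ 2 / Real.log X ^ B) := by
  refine ⟨2 * (B + 2 * K * (r + 1) + 10), B + 2 * K * (r + 1) + 10, fun A => ?_⟩
  have hlog : Tendsto (fun X : ℕ => Real.log (X : ℝ)) atTop atTop :=
    Real.tendsto_log_atTop.comp tendsto_natCast_atTop_atTop
  filter_upwards [hlog.eventually_ge_atTop 10] with X hL x hx1 hx2 hcor w G k hw hG hk
  refine SecondAux.core r K B X x _ _ hL rfl _ rfl hx1 hx2 w G k hw hG ?_
  have hgk : G k = dg (zA A X) := funext hk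
  rw [hgk]
  exact hcor

end Pool.Agent.SHT
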